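import Pool.Agent.X243.FL.Crit
import Pool.Agent.TH115.SD.Gener
import Pool.Agent.TH115.SD.Fam2

/-!
The case of irreducible polynomials of any degree.
-/

set_option autoImplicit false
set_option linter.all false

open Polynomial IsDedekindDomain WeierstrassCurve WeierstrassCurve.Affine
open scoped Classical

namespace Pool.Agent.X243.FL

open Pool.Agent.TH115.GD

section

variable {k : Type} [Field k]

variable {a b : k[X]} (ha : Irreducible a) (hb : Irreducible b) (hc : Irreducible (a - b))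
  (hco : IsCoprime a b)

include ha hb hc hco in
/-- If no constant multiple of `b` is a square modulo `a`, the second descent leaves only the triples of
the points of order two. -/
theorem full_sub (hs : ∀ δ : k, δ ≠ 0 → ∀ z : k[X], ¬ a ∣ z ^ 2 - C δ * b) : Triples2 a b ⊆
    {(1, 1, 1), (C a.leadingCoeff⁻¹ * a, C b.leadingCoeff⁻¹ * b, 1),
      (C a.leadingCoeff⁻¹ * a, 1, C (a - b).leadingCoeff⁻¹ * (a - b)),
      (1, C b.leadingCoeff⁻¹ * b, C (a - b).leadingCoeff⁻¹ * (a - b))} := by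
  rintro ⟨A, B, D⟩ ⟨⟨mA, mB, mD, sA, sB, sD, hA, hB, hD, -⟩, r, s, hcond⟩
  obtain ⟨r0, s0', onA, -, -, -⟩ := hcond
  have lb0 : b.leadingCoeff ≠ 0 := leadingCoeff_ne_zero.2 hb.ne_zero
  have lc0 : (a - b).leadingCoeff ≠ 0 := leadingCoeff_ne_zero.2 hc.ne_zero
  have ib := inv_ne_zero lb0
  have ic := inv_ne_zero lc0
  have n1 : ¬ a ∣ 1 := fun h => ha.not_isUnit (isUnit_of_dvd_one h)
  have onA := onA a (oddFactor_self ha)
  have rs : r * s ≠ 0 := mul_ne_zero r0 s0'
  rcases monic_dvd_irr ha mA hA with rfl | rfl <;> rcases monic_dvd_irr hb mB hB with rfl | rfl <;>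
    rcases monic_dvd_irr hc mD hD with rfl | rfl
  · simp
  · exfalso
    obtain ⟨z, w, hw⟩ := onA.1 n1
    refine hs (-(r * s * (a - b).leadingCoeff⁻¹)) (neg_ne_zero.2 (mul_ne_zero rs ic)) z
      ⟨w + C (r * s * (a - b).leadingCoeff⁻¹), ?_⟩
    simp only [C_neg, C_mul] at hw ⊢
    linear_combination hw
  · exfalso
    obtain ⟨z, w, hw⟩ := onA.1 n1
    refine hs (r * s * b.leadingCoeff⁻¹) (mul_ne_zero rs ib) z ⟨w, ?_⟩
    simp only [C_mul] at hw ⊢
    linear_combination hw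
  · simp
  · exfalso
    obtain ⟨z, w, hw⟩ := onA.2 (dvd_mul_left _ _)
    refine hs (-(r * s)) (neg_ne_zero.2 rs) z ⟨w, ?_⟩
    simp only [C_neg, C_mul] at hw ⊢
    linear_combination hw
  · simp
  · simp
  · exfalso
    obtain ⟨z, w, hw⟩ := onA.2 (dvd_mul_left _ _)
    obtain ⟨e, f, hef⟩ := hco
    refine hs (r * s * b.leadingCoeff⁻¹ * (a - b).leadingCoeff⁻¹)
      (mul_ne_zero (mul_ne_zero rs ib) ic) (z * f)
      ⟨w * f ^ 2 - f ^ 2 * C (r * s * b.leadingCoeff⁻¹ * (a - b).leadingCoeff⁻¹) * b ^ 2 -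
        C (r * s * b.leadingCoeff⁻¹ * (a - b).leadingCoeff⁻¹) * b * e * (1 + f * b), ?_⟩
    simp only [C_mul] at hw ⊢
    set κ := C r * C s * C b.leadingCoeff⁻¹ * C (a - b).leadingCoeff⁻¹ with hκ
    have e1 : z ^ 2 - κ * (-b ^ 2 * (a - b)) = a * w := by
      rw [← hw, hκ]
      ring
    linear_combination f ^ 2 * e1 + κ * b * (f * b + 1) * hef

include ha hb hc hco in
theorem full_card (hs : ∀ δ : k, δ ≠ 0 → ∀ z : k[X], ¬ a ∣ z ^ 2 - C δ * b) :
    (Triples2 a b).encard ≤ 2 ^ (0 + 2) := by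
  refine (Set.encard_le_encard (full_sub ha hb hc hco hs)).trans ?_
  refine (Set.encard_insert_le _ _).trans ?_
  have h1 := Set.encard_insert_le
    ({(C a.leadingCoeff⁻¹ * a, 1, C (a - b).leadingCoeff⁻¹ * (a - b)),
      (1, C b.leadingCoeff⁻¹ * b, C (a - b).leadingCoeff⁻¹ * (a - b))} : Set (k[X] × k[X] × k[X]))
    (C a.leadingCoeff⁻¹ * a, C b.leadingCoeff⁻¹ * b, 1)
  have h3 := Set.encard_insert_le
    ({(1, C b.leadingCoeff⁻¹ * b, C (a - b).leadingCoeff⁻¹ * (a - b))} :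
      Set (k[X] × k[X] × k[X]))
    (C a.leadingCoeff⁻¹ * a, 1, C (a - b).leadingCoeff⁻¹ * (a - b))
  rw [Set.encard_singleton] at h3
  have h4 : (2 : ℕ∞) ^ (0 + 2) = 1 + 1 + 1 + 1 := by norm_num
  rw [h4]
  gcongr
  exact h1.trans (by gcongr)

end

section core

variable {k k' K F : Type} [Field k] [Field k'] [Algebra k k'] [Field K] [Algebra k[X] K]
    [Field F] [Algebra k'[X] F] [IsFractionRing k'[X] F] [Algebra K F]

/-- The Tate conjecture at two for `y ^ 2 = x (x - a) (x - b)`. -/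
theorem full_crit (hT : IsTower k k' K F) (h2 : (2 : k) ≠ 0) {a b : k[X]}
    (ha : Irreducible a) (hb : Irreducible b) (hc : Irreducible (a - b))
    (sa : a.Separable) (sb : b.Separable) (sc : (a - b).Separable)
    (hco : IsCoprime a b) (hodd : TwoTight k k' a b)
    (hs : ∀ δ : k, δ ≠ 0 → ∀ z : k[X], ¬ a ∣ z ^ 2 - C δ * b) :
    TateAtTwo (F := F) k' (crv (algebraMap k[X] K a) (algebraMap k[X] K b)) ∧
    GeneratedBy (F := F) k' (crv (algebraMap k[X] K a) (algebraMap k[X] K b)) 0 := by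
  have hab : a ≠ b := fun h => hc.ne_zero (by rw [h, sub_self])
  have hsep := gen_sep ha hb hc sa sb sc
  have hcard := full_card ha hb hc hco hs
  refine ⟨criterion2 hT h2 ha.ne_zero hb.ne_zero hab hco hsep hodd
    (enough_of_rank2 hT h2 ha.ne_zero hb.ne_zero hab hco hsep hodd hcard (fun i => i.elim0) ?_),
    bound2 hT h2 ha.ne_zero hb.ne_zero hab hco hsep hodd hcard⟩
  rintro S ⟨i, _⟩
  exact i.elim0

theorem notNorm_C {k : Type} [Field k] {p : k[X]} (hn : NotNorm p) {d : k} (hd : d ≠ 0) :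
    NotNorm (C d * p) := by
  intro u D U V h
  refine hn (d⁻¹ * u) D U V ?_
  rw [C_mul, mul_assoc, ← h, ← mul_assoc, ← C_mul, inv_mul_cancel₀ hd, C_1, one_mul]

/-- All the twists by constants. -/
theorem full_twist (hT : IsTower k k' K F) (h2 : (2 : k) ≠ 0) {a b : k[X]}
    (ha : Irreducible a) (hb : Irreducible b) (hc : Irreducible (a - b))
    (sa : a.Separable) (sb : b.Separable) (sc : (a - b).Separable)
    (hco : IsCoprime a b) (na : NotNorm a) (nb : NotNorm b)
    (hs : ∀ δ : k, δ ≠ 0 → ∀ z : k[X], ¬ a ∣ z ^ 2 - C δ * b) {d : k} (hd : d ≠ 0) :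
    TateAtTwo (F := F) k' (crv (algebraMap k[X] K (C d * a)) (algebraMap k[X] K (C d * b))) ∧
    GeneratedBy (F := F) k' (crv (algebraMap k[X] K (C d * a)) (algebraMap k[X] K (C d * b))) 0 := by
  haveI := hT.sep
  have hu : IsUnit (C d : k[X]) := isUnit_C.2 (isUnit_iff_ne_zero.2 hd)
  have irr : ∀ {p : k[X]}, Irreducible p → Irreducible (C d * p) := fun hp =>
    (irreducible_isUnit_mul hu).2 hp
  have hsub : C d * a - C d * b = C d * (a - b) := by ring
  have hco' : IsCoprime (C d * a) (C d * b) := (isCoprime_mul_unit_left hu a b).2 hco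
  have tA : TightRoots k k' (C d * a) := tight_of_notNorm h2 (irr ha) (Separable.unit_mul hu sa)
    (notNorm_C na hd)
  have tB : TightRoots k k' (C d * b) := tight_of_notNorm h2 (irr hb) (Separable.unit_mul hu sb)
    (notNorm_C nb hd)
  refine full_crit hT h2 (irr ha) (irr hb) (by rw [hsub]; exact irr hc)
    (Separable.unit_mul hu sa) (Separable.unit_mul hu sb)
    (by rw [hsub]; exact Separable.unit_mul hu sc) hco' (Or.inl ⟨tA, tB⟩) ?_
  intro δ hδ z hz
  refine hs (δ * d) (mul_ne_zero hδ hd) z ?_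
  have h3 := (Dvd.intro_left _ rfl : a ∣ C d * a).trans hz
  rw [C_mul, mul_assoc]
  exact h3

end core

end Pool.Agent.X243.FL
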