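import Pool.Agent.TH115.GD.Crit
import Pool.Agent.TH115.ID.Defs

/-!
Roots which cannot be separated by a quadratic character; the global step.
-/

set_option autoImplicit false
set_option linter.all false

open Polynomial IsDedekindDomain WeierstrassCurve WeierstrassCurve.Affine
open scoped Classical

namespace Pool.Agent.X243.FL

open Pool.Agent.TH115.GD

section tight

variable {k k' : Type} [Field k] [Field k'] [Algebra k k']

/-- There is a nonempty finite set of roots of odd multiplicity of `p`, stable under the Galois group, such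
that no function to `ℤ / 2` on it is changed by a nonzero constant by an element of the Galois group,
if it is changed by a constant by all elements. -/
def TightRoots (k k' : Type) [Field k] [Field k'] [Algebra k k'] (p : k[X]) : Prop :=
  ∃ Z : Finset k', Z.Nonempty ∧ (∀ s : k' ≃ₐ[k] k', ∀ θ ∈ Z, s θ ∈ Z) ∧
    (∀ θ ∈ Z, Odd (rootMultiplicity θ (p.map (algebraMap k k')))) ∧
    ∀ (f : k' → ZMod 2) (e : (k' ≃ₐ[k] k') → ZMod 2),
      (∀ s, ∀ θ ∈ Z, f θ = f (s θ) + e s) → ∀ s, e s = 0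

/-- Two of the three polynomials `a`, `b`, `a - b` have tight roots. -/
def TwoTight (k k' : Type) [Field k] [Field k'] [Algebra k k'] (a b : k[X]) : Prop :=
  (TightRoots k k' a ∧ TightRoots k k' b) ∨ (TightRoots k k' a ∧ TightRoots k k' (a - b)) ∨
    (TightRoots k k' b ∧ TightRoots k k' (a - b))

theorem z2_one : ∀ x : ZMod 2, x ≠ 0 → x = 1 := by decide

theorem tight_of_odd {p : k[X]} (h : OddRoots k k' p) : TightRoots k k' p := by
  obtain ⟨Z, h1, h2, h3⟩ := h
  refine ⟨Z, Finset.card_pos.1 h1.pos, h2, h3, fun f e he s => ?_⟩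
  by_contra h
  have h4 : e s = 1 := z2_one _ h
  exact no_swap Z h1 s (h2 s) f (fun θ hθ => by rw [← h4]; exact he s θ hθ)

theorem fixed_poly [IsGalois k k'] {P : k'[X]} (h : ∀ s : k' ≃ₐ[k] k', P.map (s : k' →+* k') = P) :
    ∃ Q : k[X], Q.map (algebraMap k k') = P := by
  have h1 : P ∈ lifts (algebraMap k k') := by
    rw [lifts_iff_coeff_lifts]
    intro n
    rw [InfiniteGalois.mem_range_algebraMap_iff_fixed]
    intro s
    have := congrArg (fun q : k'[X] => q.coeff n) (h s)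
    simp only [coeff_map] at this
    exact this
  exact (mem_lifts P).1 h1

/-- The roots of an irreducible polynomial which is not a constant times a norm are tight. -/
theorem tight_of_notNorm [IsSepClosure k k'] (h2 : (2 : k) ≠ 0) {p : k[X]} (hp : Irreducible p)
    (hs : p.Separable) (hn : NotNorm p) : TightRoots k k' p := by
  haveI : IsSepClosed k' := IsSepClosure.sep_closed k
  haveI : IsGalois k k' := inferInstance
  have h2' : (2 : k') ≠ 0 := by
    rw [← map_ofNat (algebraMap k k') 2]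
    exact (_root_.map_ne_zero _).2 h2
  have injk := (algebraMap k k').injective
  set P := p.map (algebraMap k k') with hP
  have hP0 : P ≠ 0 := (Polynomial.map_ne_zero_iff injk).2 hp.ne_zero
  have hspl : P.Splits := IsSepClosed.splits_codomain _ hs
  have hsepP : P.Separable := hs.map
  have hnd : P.roots.Nodup := nodup_roots hsepP
  have hmem : ∀ θ : k', θ ∈ P.roots.toFinset ↔ P.IsRoot θ := by
    intro θ
    rw [Multiset.mem_toFinset, mem_roots hP0]
  have hstab : ∀ s : k' ≃ₐ[k] k', ∀ θ ∈ P.roots.toFinset, s θ ∈ P.roots.toFinset := by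
    intro s θ hθ
    rw [hmem, IsRoot.def, eval_map_algebraMap] at hθ ⊢
    have h5 : aeval (s θ) p = s (aeval θ p) := Polynomial.aeval_algHom_apply s.toAlgHom θ p
    rw [h5, hθ, map_zero]
  have hne : P.roots.toFinset.Nonempty := by
    by_contra h
    rw [Finset.not_nonempty_iff_eq_empty, Multiset.toFinset_eq_empty] at h
    have h3 := hspl.natDegree_eq_card_roots
    rw [h, Multiset.card_zero, natDegree_map] at h3
    exact absurd hp.natDegree_pos (by omega)
  obtain ⟨Z, hZ⟩ : ∃ Z, Z = P.roots.toFinset := ⟨_, rfl⟩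
  rw [← hZ] at hstab hne
  refine ⟨Z, hne, hstab, ?_, ?_⟩
  · intro θ hθ
    rw [hZ, hmem] at hθ
    have h3 : rootMultiplicity θ P ≤ 1 := rootMultiplicity_le_one_of_separable hsepP θ
    have h4 : 0 < rootMultiplicity θ P := (rootMultiplicity_pos hP0).2 hθ
    have h5 : rootMultiplicity θ P = 1 := by omega
    rw [h5]
    exact odd_one
  · intro f e he s0
    by_contra hne0
    have hs0 : e s0 = 1 := z2_one _ hne0
    obtain ⟨Z1, hZ1⟩ : ∃ Z1, Z1 = Z.filter (fun θ => f θ = 1) := ⟨_, rfl⟩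
    obtain ⟨Z0, hZ0⟩ : ∃ Z0, Z0 = Z.filter (fun θ => ¬ f θ = 1) := ⟨_, rfl⟩
    obtain ⟨A, hA⟩ : ∃ A : k'[X], A = ∏ θ ∈ Z1, (X - C θ) := ⟨_, rfl⟩
    obtain ⟨B, hB⟩ : ∃ B : k'[X], B = ∏ θ ∈ Z0, (X - C θ) := ⟨_, rfl⟩
    have hAB : P = C P.leadingCoeff * (A * B) := by
      have h3 := hspl.eq_prod_roots
      have h4 : (P.roots.map fun θ => X - C θ).prod = ∏ θ ∈ Z, (X - C θ) := by
        rw [hZ, Finset.prod_multiset_map_count]
        refine Finset.prod_congr rfl fun θ hθ => ?_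
        rw [Multiset.count_eq_one_of_mem hnd (Multiset.mem_toFinset.1 hθ), pow_one]
      rw [h4, ← Finset.prod_filter_mul_prod_filter_not Z (fun θ => f θ = 1), ← hZ1, ← hZ0,
        ← hA, ← hB] at h3
      exact h3
    have hmap : ∀ (s : k' ≃ₐ[k] k') (S T : Finset k'), (∀ θ ∈ S, s θ ∈ T) → T.card ≤ S.card →
        (∏ θ ∈ S, (X - C θ)).map (s : k' →+* k') = ∏ θ ∈ T, (X - C θ) := by
      intro s S T hST hc
      have himg : S.image s = T := by
        apply Finset.eq_of_subset_of_card_le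
        · intro x hx
          obtain ⟨θ, hθ, rfl⟩ := Finset.mem_image.1 hx
          exact hST θ hθ
        · rw [Finset.card_image_of_injective _ s.injective]
          exact hc
      rw [Polynomial.map_prod, ← himg, Finset.prod_image (fun x _ y _ h => s.injective h)]
      refine Finset.prod_congr rfl fun θ _ => ?_
      rw [Polynomial.map_sub, map_X, map_C]
      rfl
    have m1 : ∀ θ, θ ∈ Z1 ↔ θ ∈ Z ∧ f θ = 1 := fun θ => by rw [hZ1, Finset.mem_filter]
    have m0 : ∀ θ, θ ∈ Z0 ↔ θ ∈ Z ∧ f θ = 0 := fun θ => by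
      rw [hZ0, Finset.mem_filter]
      have : ∀ x : ZMod 2, (¬ x = 1) ↔ x = 0 := by decide
      rw [this]
    have dec1 : ∀ x y : ZMod 2, x = y + 1 → (x = 1 → y = 0) ∧ (x = 0 → y = 1) := by decide
    have c10 : Z0.card ≤ Z1.card := by
      rw [← Finset.card_image_of_injective Z0 s0.injective]
      refine Finset.card_le_card fun x hx => ?_
      obtain ⟨θ, hθ, rfl⟩ := Finset.mem_image.1 hx
      rw [m0] at hθ
      have h3 := he s0 θ hθ.1
      rw [hs0] at h3
      exact (m1 _).2 ⟨hstab s0 θ hθ.1, (dec1 _ _ h3).2 hθ.2⟩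
    have c01 : Z1.card ≤ Z0.card := by
      rw [← Finset.card_image_of_injective Z1 s0.injective]
      refine Finset.card_le_card fun x hx => ?_
      obtain ⟨θ, hθ, rfl⟩ := Finset.mem_image.1 hx
      rw [m1] at hθ
      have h3 := he s0 θ hθ.1
      rw [hs0] at h3
      exact (m0 _).2 ⟨hstab s0 θ hθ.1, (dec1 _ _ h3).1 hθ.2⟩
    have act0 : ∀ s, e s = 0 → A.map (s : k' →+* k') = A ∧ B.map (s : k' →+* k') = B := by
      intro s hs'
      refine ⟨?_, ?_⟩
      · rw [hA]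
        refine hmap s Z1 Z1 (fun θ hθ => ?_) le_rfl
        rw [m1] at hθ ⊢
        refine ⟨hstab s θ hθ.1, ?_⟩
        have h3 := he s θ hθ.1
        rw [hs', add_zero] at h3
        rw [← h3]; exact hθ.2
      · rw [hB]
        refine hmap s Z0 Z0 (fun θ hθ => ?_) le_rfl
        rw [m0] at hθ ⊢
        refine ⟨hstab s θ hθ.1, ?_⟩
        have h3 := he s θ hθ.1
        rw [hs', add_zero] at h3
        rw [← h3]; exact hθ.2
    have act1 : ∀ s, e s = 1 → A.map (s : k' →+* k') = B ∧ B.map (s : k' →+* k') = A := by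
      intro s hs'
      refine ⟨?_, ?_⟩
      · rw [hA, hB]
        refine hmap s Z1 Z0 (fun θ hθ => ?_) c10
        rw [m1] at hθ
        rw [m0]
        have h3 := he s θ hθ.1
        rw [hs'] at h3
        exact ⟨hstab s θ hθ.1, (dec1 _ _ h3).1 hθ.2⟩
      · rw [hA, hB]
        refine hmap s Z0 Z1 (fun θ hθ => ?_) c01
        rw [m0] at hθ
        rw [m1]
        have h3 := he s θ hθ.1
        rw [hs'] at h3
        exact ⟨hstab s θ hθ.1, (dec1 _ _ h3).2 hθ.2⟩
    have hneq : A ≠ B := by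
      intro hcon
      obtain ⟨θ, hθ⟩ := hne
      have ev : ∀ S : Finset k', (∏ θ ∈ S, (X - C θ)).eval θ = 0 ↔ θ ∈ S := by
        intro S
        rw [eval_prod, Finset.prod_eq_zero_iff]
        constructor
        · rintro ⟨x, hx, h⟩
          rw [eval_sub, eval_X, eval_C, sub_eq_zero] at h
          rwa [h]
        · intro h
          exact ⟨θ, h, by rw [eval_sub, eval_X, eval_C, sub_self]⟩
      have h3 : θ ∈ Z1 ↔ θ ∈ Z0 := by
        rw [← ev, ← ev, ← hA, ← hB, hcon]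
      rw [m1, m0] at h3
      rcases eq_or_ne (f θ) 1 with h | h
      · have := (h3.1 ⟨hθ, h⟩).2
        rw [h] at this
        exact one_ne_zero this
      · have h4 : f θ = 0 := by
          by_contra h5
          exact h (z2_one _ h5)
        exact h ((h3.2 ⟨hθ, h4⟩).2)
    obtain ⟨j, hj⟩ : ∃ j, A.coeff j ≠ B.coeff j := by
      by_contra h
      exact hneq (Polynomial.ext fun j => by
        by_contra h3
        exact h ⟨j, h3⟩)
    obtain ⟨ω, hω⟩ : ∃ ω, ω = A.coeff j - B.coeff j := ⟨_, rfl⟩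
    have hω0 : ω ≠ 0 := by rw [hω]; exact sub_ne_zero.2 hj
    have actc : ∀ (s : k' ≃ₐ[k] k') (Q R : k'[X]), Q.map (s : k' →+* k') = R →
        s (Q.coeff j) = R.coeff j := by
      intro s Q R h
      rw [← h, coeff_map]
      rfl
    have w0 : ∀ s, e s = 0 → s ω = ω := by
      intro s hs'
      rw [hω, map_sub, actc s A A (act0 s hs').1, actc s B B (act0 s hs').2]
    have w1 : ∀ s, e s = 1 → s ω = -ω := by
      intro s hs'
      rw [hω, map_sub, actc s A B (act1 s hs').1, actc s B A (act1 s hs').2]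
      ring
    have dich : ∀ s, e s = 0 ∨ e s = 1 := by
      intro s
      have : ∀ x : ZMod 2, x = 0 ∨ x = 1 := by decide
      exact this _
    have hω2 : ω ^ 2 ∈ Set.range (algebraMap k k') := by
      rw [InfiniteGalois.mem_range_algebraMap_iff_fixed]
      intro s
      rw [map_pow]
      rcases dich s with h | h
      · rw [w0 s h]
      · rw [w1 s h, neg_sq]
    obtain ⟨d, hd⟩ := hω2
    obtain ⟨U, hU⟩ := fixed_poly (k := k) (P := A + B) (fun s => by
      rw [Polynomial.map_add]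
      rcases dich s with h | h
      · rw [(act0 s h).1, (act0 s h).2]
      · rw [(act1 s h).1, (act1 s h).2, add_comm])
    obtain ⟨V, hV⟩ := fixed_poly (k := k) (P := C ω⁻¹ * (A - B)) (fun s => by
      rw [Polynomial.map_mul, Polynomial.map_sub, map_C]
      have hc : (s : k' →+* k') ω⁻¹ = (s ω)⁻¹ := map_inv₀ s ω
      rcases dich s with h | h
      · rw [(act0 s h).1, (act0 s h).2, hc, w0 s h]
      · rw [(act1 s h).1, (act1 s h).2, hc, w1 s h, inv_neg, C_neg]
        ring)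
    have h4 : (4 : k') ≠ 0 := by
      rw [show (4 : k') = 2 * 2 by norm_num]
      exact mul_ne_zero h2' h2'
    have hfin : p = C (p.leadingCoeff / 4) * (U ^ 2 - C d * V ^ 2) := by
      apply Polynomial.map_injective _ injk
      rw [← hP, Polynomial.map_mul, Polynomial.map_sub, Polynomial.map_pow, Polynomial.map_mul,
        Polynomial.map_pow, hU, hV, map_C, map_C, hd]
      conv_lhs => rw [hAB]
      have h5 : P.leadingCoeff = algebraMap k k' p.leadingCoeff := by
        rw [hP, leadingCoeff_map]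
      have h6 : (C ω * C ω⁻¹ : k'[X]) = 1 := by
        rw [← C_mul, mul_inv_cancel₀ hω0, C_1]
      have h7 : (C (algebraMap k k' (p.leadingCoeff / 4)) : k'[X]) * 4 = C P.leadingCoeff := by
        rw [h5, map_div₀, map_ofNat]
        have : (4 : k'[X]) = C 4 := rfl
        rw [this, ← C_mul, div_mul_cancel₀ _ h4]
      have h8 : (A + B) ^ 2 - C (ω ^ 2) * (C ω⁻¹ * (A - B)) ^ 2 = 4 * (A * B) := by
        rw [C_pow]
        linear_combination -((A - B) ^ 2 * (C ω * C ω⁻¹ + 1)) * h6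
      rw [h8, ← h7]
      ring
    obtain ⟨-, g, hg⟩ := hn _ d U V hfin
    have h9 : ω ^ 2 = (algebraMap k k' g) ^ 2 := by
      rw [← hd, hg, map_mul, pow_two]
    have h10 : s0 ω = ω := by
      rcases sq_eq_sq_iff_eq_or_eq_neg.1 h9 with h | h
      · rw [h]; exact s0.commutes g
      · rw [h, map_neg]
        congr 1
        exact s0.commutes g
    rw [w1 s0 hs0] at h10
    have h11 : 2 * ω = 0 := by linear_combination -h10
    exact (mul_ne_zero h2' hω0) h11

end tight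

section

variable {k k' K F Ω : Type} [Field k] [Field k'] [Algebra k k'] [IsSepClosure k k']
  [Field K] [Algebra k[X] K] [IsFractionRing k[X] K] [Field F] [Algebra k'[X] F]
  [IsFractionRing k'[X] F] [Algebra K F]
  (hKF : ∀ p : k[X], algebraMap K F (algebraMap k[X] K p) =
    algebraMap k'[X] F (p.map (algebraMap k k')))

variable (a b : k[X])

variable [Field Ω] [Algebra F Ω] [Algebra K Ω] [IsScalarTower K F Ω] [IsSepClosure F Ω]

section core

variable {a b} (h2 : (2 : k) ≠ 0) (ha : a ≠ 0) (hb : b ≠ 0) (hab : a ≠ b) (hco : IsCoprime a b)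
  (hsplit : ((a * b * (a - b)).map (algebraMap k k')).Splits)

include hKF h2 ha hb hab hco in
/-- The point of order two in the relation is zero. -/
theorem tz (hodd : TwoTight k k' a b) {a0 a1 : F} (n0 : a0 ≠ 0) (n1 : a1 ≠ 0)
    (hfix : FixedMod (crv (algebraMap k[X] K a) (algebraMap k[X] K b)) (algebraMap k[X] K a)
      (algebraMap k[X] K b) Ω a0 a1) (τ : Ω ≃ₐ[K] Ω) {u0 u1 : F} (hu0 : u0 ≠ 0) (hu1 : u1 ≠ 0)
    {T : Pt (crv (algebraMap k[X] K a) (algebraMap k[X] K b)) F} (hTT : T + T = 0)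
    (e0 : τ (algebraMap F Ω a0) = algebraMap F Ω
      (u0 ^ 2 * (a0 * d0 (algebraMap K F (algebraMap k[X] K a))
        (algebraMap K F (algebraMap k[X] K b)) T)))
    (e1 : τ (algebraMap F Ω a1) = algebraMap F Ω
      (u1 ^ 2 * (a1 * d1 (algebraMap K F (algebraMap k[X] K a))
        (algebraMap K F (algebraMap k[X] K b)) T))) : T = 0 := by
  haveI : IsSepClosed k' := IsSepClosure.sep_closed k
  haveI : IsGalois k k' := inferInstance
  have hsub : a - b ≠ 0 := sub_ne_zero.2 hab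
  have h2K : (2 : K) ≠ 0 := by
    have h3 : algebraMap k[X] K (C (2 : k)) ≠ 0 := by
      rw [Ne, map_eq_zero_iff _ (IsFractionRing.injective k[X] K), C_eq_zero]
      exact h2
    rwa [map_ofNat, map_ofNat] at h3
  have inj := IsFractionRing.injective k[X] K
  have haK : algebraMap k[X] K a ≠ 0 := by simpa using ha
  have hbK : algebraMap k[X] K b ≠ 0 := by simpa using hb
  have habK : algebraMap k[X] K a ≠ algebraMap k[X] K b := fun h => hab (inj h)
  have hE := isE (algebraMap k[X] K a) (algebraMap k[X] K b) F h2K haK hbK habK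
  set αF := algebraMap K F (algebraMap k[X] K a) with hαF
  set βF := algebraMap K F (algebraMap k[X] K b) with hβF
  have hαβ : αF - βF = algebraMap K F (algebraMap k[X] K (a - b)) := by
    rw [map_sub, map_sub]
  have hβα : βF - αF = -algebraMap K F (algebraMap k[X] K (a - b)) := by
    rw [← hαβ]; ring
  have nα : αF ≠ 0 := hE.nea
  have nβ : βF ≠ 0 := hE.neb
  have nαβ : αF - βF ≠ 0 := sub_ne_zero.2 hE.neab
  have nβα : βF - αF ≠ 0 := sub_ne_zero.2 (Ne.symm hE.neab)
  have par_neg : ∀ (v : HeightOneSpectrum k'[X]) (x : F), par v (-x) = par v x := by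
    intro v x
    unfold par
    rw [Valuation.map_neg]
  have nb := fun θ : k' => not_both (a := a) (b := b) hco (pl θ)
  simp only [mem_pl] at nb
  have z0 : d0 αF βF (0 : ((crv (algebraMap k[X] K a) (algebraMap k[X] K b)).baseChange
      F).toAffine.Point) = 1 := rfl
  have z1 : d1 αF βF (0 : ((crv (algebraMap k[X] K a) (algebraMap k[X] K b)).baseChange
      F).toAffine.Point) = 1 := rfl
  have rel : ∀ (τ : Ω ≃ₐ[K] Ω) (s : k' ≃ₐ[k] k'), (∀ p : k'[X],
      τ (algebraMap F Ω (algebraMap k'[X] F p)) =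
        algebraMap F Ω (algebraMap k'[X] F (p.map (s : k' →+* k')))) →
      ∀ (T : Pt (crv (algebraMap k[X] K a) (algebraMap k[X] K b)) F) (u0 u1 : F), T + T = 0 →
      u0 ≠ 0 → u1 ≠ 0 →
      τ (algebraMap F Ω a0) = algebraMap F Ω (u0 ^ 2 * (a0 * d0 αF βF T)) →
      τ (algebraMap F Ω a1) = algebraMap F Ω (u1 ^ 2 * (a1 * d1 αF βF T)) →
      (∀ θ, par (pl θ) a0 = par (pl (s θ)) a0 + par (pl (s θ)) (d0 αF βF T)) ∧
      (∀ θ, par (pl θ) a1 = par (pl (s θ)) a1 + par (pl (s θ)) (d1 αF βF T)) := by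
    intro τ s hτ T u0 u1 hTT hu0 hu1 e0 e1
    have m0 : ∀ θ, par (pl (s θ)) (u0 ^ 2 * (a0 * d0 αF βF T)) = par (pl θ) a0 :=
      fun θ => par_galois τ s hτ n0 e0 θ
    have m1 : ∀ θ, par (pl (s θ)) (u1 ^ 2 * (a1 * d1 αF βF T)) = par (pl θ) a1 :=
      fun θ => par_galois τ s hτ n1 e1 θ
    have nd0 : d0 αF βF T ≠ 0 := d0_ne hE T
    have nd1 : d1 αF βF T ≠ 0 := d1_ne hE T
    refine ⟨fun θ => ?_, fun θ => ?_⟩
    · rw [← m0, par_sq _ hu0 (mul_ne_zero n0 nd0), par_mul _ n0 nd0]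
    · rw [← m1, par_sq _ hu1 (mul_ne_zero n1 nd1), par_mul _ n1 nd1]
  -- the values at the three kinds of places
  have vA : ∀ T : Pt (crv (algebraMap k[X] K a) (algebraMap k[X] K b)) F, T + T = 0 →
      ∃ x : ZMod 2, (∀ θ : k', Odd (rootMultiplicity θ (a.map (algebraMap k k'))) →
        par (pl θ) (d1 αF βF T) = x) ∧ (x = 0 → T = 0 ∨ (d0 αF βF T = βF ∧ d1 αF βF T = βF - αF)) := by
    intro T hT
    rcases tor_d hE hT with h | ⟨h, h'⟩ | ⟨h, h'⟩ | ⟨h, h'⟩
    · refine ⟨0, fun θ _ => ?_, fun _ => Or.inl h⟩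
      rw [h, z1, par_one]
    · refine ⟨1, fun θ ho => ?_, fun h0 => absurd h0 (by decide)⟩
      rw [h', par_neg, hαF, par_odd hKF ha ho]
    · refine ⟨1, fun θ ho => ?_, fun h0 => absurd h0 (by decide)⟩
      rw [h', par_mul _ nα nαβ, hαβ, hαF, par_odd hKF ha ho,
        par_unit hKF hsub ((nb _).1 (isRoot_of_odd ho)).2, add_zero]
    · refine ⟨0, fun θ ho => ?_, fun _ => Or.inr ⟨h, h'⟩⟩
      rw [h', hβα, par_neg, par_unit hKF hsub ((nb _).1 (isRoot_of_odd ho)).2]
  have vB : ∀ T : Pt (crv (algebraMap k[X] K a) (algebraMap k[X] K b)) F, T + T = 0 →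
      ∃ x : ZMod 2, (∀ θ : k', Odd (rootMultiplicity θ (b.map (algebraMap k k'))) →
        par (pl θ) (d0 αF βF T) = x) ∧
        (x = 0 → T = 0 ∨ (d0 αF βF T = αF ∧ d1 αF βF T = αF * (αF - βF))) := by
    intro T hT
    rcases tor_d hE hT with h | ⟨h, h'⟩ | ⟨h, h'⟩ | ⟨h, h'⟩
    · refine ⟨0, fun θ _ => ?_, fun _ => Or.inl h⟩
      rw [h, z0, par_one]
    · refine ⟨1, fun θ ho => ?_, fun h0 => absurd h0 (by decide)⟩
      rw [h, par_mul _ nα nβ, hαF, hβF, par_odd hKF hb ho,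
        par_unit hKF ha ((nb _).2.1 (isRoot_of_odd ho)).1, zero_add]
    · refine ⟨0, fun θ ho => ?_, fun _ => Or.inr ⟨h, h'⟩⟩
      rw [h, hαF, par_unit hKF ha ((nb _).2.1 (isRoot_of_odd ho)).1]
    · refine ⟨1, fun θ ho => ?_, fun h0 => absurd h0 (by decide)⟩
      rw [h, hβF, par_odd hKF hb ho]
  have vC : ∀ T : Pt (crv (algebraMap k[X] K a) (algebraMap k[X] K b)) F, T + T = 0 →
      ∃ x : ZMod 2, (∀ θ : k', Odd (rootMultiplicity θ ((a - b).map (algebraMap k k'))) →
        par (pl θ) (d1 αF βF T) = x) ∧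
        (x = 0 → T = 0 ∨ (d0 αF βF T = αF * βF ∧ d1 αF βF T = -αF)) := by
    intro T hT
    rcases tor_d hE hT with h | ⟨h, h'⟩ | ⟨h, h'⟩ | ⟨h, h'⟩
    · refine ⟨0, fun θ _ => ?_, fun _ => Or.inl h⟩
      rw [h, z1, par_one]
    · refine ⟨0, fun θ ho => ?_, fun _ => Or.inr ⟨h, h'⟩⟩
      rw [h', par_neg, hαF, par_unit hKF ha ((nb _).2.2 (isRoot_of_odd ho)).1]
    · refine ⟨1, fun θ ho => ?_, fun h0 => absurd h0 (by decide)⟩
      rw [h', par_mul _ nα nαβ, hαβ, hαF, par_odd hKF hsub ho,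
        par_unit hKF ha ((nb _).2.2 (isRoot_of_odd ho)).1, zero_add]
    · refine ⟨1, fun θ ho => ?_, fun h0 => absurd h0 (by decide)⟩
      rw [h', hβα, par_neg, par_odd hKF hsub ho]
  -- the points for all the automorphisms
  have ex : ∀ s : k' ≃ₐ[k] k', ∃ T : Pt (crv (algebraMap k[X] K a) (algebraMap k[X] K b)) F,
      T + T = 0 ∧ (∀ θ, par (pl θ) a0 = par (pl (s θ)) a0 + par (pl (s θ)) (d0 αF βF T)) ∧
      (∀ θ, par (pl θ) a1 = par (pl (s θ)) a1 + par (pl (s θ)) (d1 αF βF T)) := by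
    intro s
    obtain ⟨τ, hτ⟩ := lift (Ω := Ω) hKF s
    obtain ⟨T, u0, u1, hT, hu0, hu1, e0, e1⟩ := hfix τ
    exact ⟨T, hT, rel τ s hτ T u0 u1 hT hu0 hu1 e0 e1⟩
  choose Ts hTs r0 r1 using ex
  obtain ⟨s, hτ⟩ := restr (Ω := Ω) hKF τ
  obtain ⟨q0, q1⟩ := rel τ s hτ T u0 u1 hTT hu0 hu1 e0 e1
  have gen : ∀ (p : k[X]) (x0 : F) (dd : Pt (crv (algebraMap k[X] K a) (algebraMap k[X] K b)) F → F)
      (Good : Pt (crv (algebraMap k[X] K a) (algebraMap k[X] K b)) F → Prop),
      (∀ T, T + T = 0 → ∃ x : ZMod 2, (∀ θ : k',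
        Odd (rootMultiplicity θ (p.map (algebraMap k k'))) → par (pl θ) (dd T) = x) ∧
        (x = 0 → Good T)) →
      (∀ s θ, par (pl θ) x0 = par (pl (s θ)) x0 + par (pl (s θ)) (dd (Ts s))) →
      (∀ θ, par (pl θ) x0 = par (pl (s θ)) x0 + par (pl (s θ)) (dd T)) →
      TightRoots k k' p → Good T := by
    intro p x0 dd Good hv hs hT' htight
    obtain ⟨Z, ⟨θ, hθ⟩, hZ2, hZ3, hZ4⟩ := htight
    choose! x hx hx' using hv
    have h3 := hZ4 (fun θ => par (pl θ) x0) (fun s => x (Ts s)) (fun s θ hθ => by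
      rw [← hx (Ts s) (hTs s) (s θ) (hZ3 _ (hZ2 s θ hθ))]
      exact hs s θ) s
    refine hx' T hTT ?_
    have h5 := hs s θ
    have h6 := hT' θ
    rw [hx (Ts s) (hTs s) (s θ) (hZ3 _ (hZ2 s θ hθ))] at h5
    rw [hx T hTT (s θ) (hZ3 _ (hZ2 s θ hθ)), h5] at h6
    have h7 : x (Ts s) = x T := add_left_cancel h6
    rw [← h7]
    exact h3
  have gA := gen a a1 (d1 αF βF) _ vA r1 q1
  have gB := gen b a0 (d0 αF βF) _ vB r0 q0
  have gC := gen (a - b) a1 (d1 αF βF) _ vC r1 q1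
  rcases hodd with ⟨o1, o2⟩ | ⟨o1, o2⟩ | ⟨o1, o2⟩
  · rcases gA o1 with h | ⟨h, h'⟩
    · exact h
    rcases gB o2 with h3 | ⟨h3, h3'⟩
    · exact h3
    exfalso
    apply nαβ
    rw [← h3, h, sub_self]
  · rcases gA o1 with h | ⟨h, h'⟩
    · exact h
    rcases gC o2 with h3 | ⟨h3, h3'⟩
    · exact h3
    exfalso
    apply nβ
    rw [h'] at h3'
    linear_combination h3'
  · rcases gB o1 with h | ⟨h, h'⟩
    · exact h
    rcases gC o2 with h3 | ⟨h3, h3'⟩
    · exact h3
    exfalso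
    rw [h] at h3
    rw [h'] at h3'
    have h5 : βF = 1 := by
      apply mul_left_cancel₀ nα
      rw [mul_one]
      exact h3.symm
    have h6 : αF - βF = -1 := by
      apply mul_left_cancel₀ nα
      rw [h3']
      ring
    apply nα
    rw [h5] at h6
    linear_combination h6

include hKF h2 ha hb hab hco hsplit in
/-- The global step. -/
theorem global_core (hodd : TwoTight k k' a b) {a0 a1 : F} (n0 : a0 ≠ 0) (n1 : a1 ≠ 0)
    (hloc : LocPar (k' := k') a b a0 a1)
    (hfix : FixedMod (crv (algebraMap k[X] K a) (algebraMap k[X] K b)) (algebraMap k[X] K a)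
      (algebraMap k[X] K b) Ω a0 a1) :
    ∃ A B D : k[X], A.Monic ∧ B.Monic ∧ D.Monic ∧ Squarefree A ∧ Squarefree B ∧ Squarefree D ∧
      A ∣ a ∧ B ∣ b ∧ D ∣ a - b ∧ ∃ c0 c1 : F, c0 ≠ 0 ∧ c1 ≠ 0 ∧
        a0 = c0 ^ 2 * algebraMap K F (algebraMap k[X] K (A * B)) ∧
        a1 = c1 ^ 2 * algebraMap K F (algebraMap k[X] K (A * D)) := by
  haveI : IsSepClosed k' := IsSepClosure.sep_closed k
  haveI : IsGalois k k' := inferInstance
  have hsub : a - b ≠ 0 := sub_ne_zero.2 hab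
  have h2K : (2 : K) ≠ 0 := by
    have h3 : algebraMap k[X] K (C (2 : k)) ≠ 0 := by
      rw [Ne, map_eq_zero_iff _ (IsFractionRing.injective k[X] K), C_eq_zero]
      exact h2
    rwa [map_ofNat, map_ofNat] at h3
  have h2' : (2 : k') ≠ 0 := by
    rw [← map_ofNat (algebraMap k k') 2]
    exact (_root_.map_ne_zero _).2 h2
  have inj := IsFractionRing.injective k[X] K
  have haK : algebraMap k[X] K a ≠ 0 := by simpa using ha
  have hbK : algebraMap k[X] K b ≠ 0 := by simpa using hb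
  have habK : algebraMap k[X] K a ≠ algebraMap k[X] K b := fun h => hab (inj h)
  have hE := isE (algebraMap k[X] K a) (algebraMap k[X] K b) F h2K haK hbK habK
  set αF := algebraMap K F (algebraMap k[X] K a) with hαF
  set βF := algebraMap K F (algebraMap k[X] K b) with hβF
  have hαβ : αF - βF = algebraMap K F (algebraMap k[X] K (a - b)) := by
    rw [map_sub, map_sub]
  have hβα : βF - αF = -algebraMap K F (algebraMap k[X] K (a - b)) := by
    rw [← hαβ]; ring
  have nα : αF ≠ 0 := hE.nea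
  have nβ : βF ≠ 0 := hE.neb
  have nαβ : αF - βF ≠ 0 := sub_ne_zero.2 hE.neab
  have nβα : βF - αF ≠ 0 := sub_ne_zero.2 (Ne.symm hE.neab)
  have par_neg : ∀ (v : HeightOneSpectrum k'[X]) (x : F), par v (-x) = par v x := by
    intro v x
    unfold par
    rw [Valuation.map_neg]
  -- the roots are roots of one of the three polynomials only
  have nb := fun θ : k' => not_both (a := a) (b := b) hco (pl θ)
  simp only [mem_pl] at nb
  -- the sign of the Galois action
  have key : ∀ s : k' ≃ₐ[k] k', (∀ θ, par (pl (s θ)) a0 = par (pl θ) a0) ∧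
      ∀ θ, par (pl (s θ)) a1 = par (pl θ) a1 := by
    intro s
    obtain ⟨τ, hτ⟩ := lift (Ω := Ω) hKF s
    obtain ⟨T, u0, u1, hT, hu0, hu1, e0, e1⟩ := hfix τ
    have m0 : ∀ θ, par (pl (s θ)) (u0 ^ 2 * (a0 * d0 αF βF T)) = par (pl θ) a0 :=
      fun θ => par_galois τ s hτ n0 e0 θ
    have m1 : ∀ θ, par (pl (s θ)) (u1 ^ 2 * (a1 * d1 αF βF T)) = par (pl θ) a1 :=
      fun θ => par_galois τ s hτ n1 e1 θ
    have nd0 : d0 αF βF T ≠ 0 := d0_ne hE T
    have nd1 : d1 αF βF T ≠ 0 := d1_ne hE T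
    have m0' : ∀ θ, par (pl θ) a0 = par (pl (s θ)) a0 + par (pl (s θ)) (d0 αF βF T) := by
      intro θ
      rw [← m0, par_sq _ hu0 (mul_ne_zero n0 nd0), par_mul _ n0 nd0]
    have m1' : ∀ θ, par (pl θ) a1 = par (pl (s θ)) a1 + par (pl (s θ)) (d1 αF βF T) := by
      intro θ
      rw [← m1, par_sq _ hu1 (mul_ne_zero n1 nd1), par_mul _ n1 nd1]
    have hT0 : T = 0 := tz hKF h2 ha hb hab hco hodd n0 n1 hfix τ hu0 hu1 hT e0 e1
    rw [hT0] at m0' m1'
    have z0 : d0 αF βF (0 : ((crv (algebraMap k[X] K a) (algebraMap k[X] K b)).baseChange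
      F).toAffine.Point) = 1 := rfl
    have z1 : d1 αF βF (0 : ((crv (algebraMap k[X] K a) (algebraMap k[X] K b)).baseChange
      F).toAffine.Point) = 1 := rfl
    exact ⟨fun θ => by rw [m0' θ, z0, par_one, add_zero],
      fun θ => by rw [m1' θ, z1, par_one, add_zero]⟩
  -- the sets of roots
  set aa := a.map (algebraMap k k') with haa
  set bb := b.map (algebraMap k k') with hbb
  set cc := (a - b).map (algebraMap k k') with hcc
  have injk := (algebraMap k k').injective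
  have naa : aa ≠ 0 := (Polynomial.map_ne_zero_iff injk).2 ha
  have nbb : bb ≠ 0 := (Polynomial.map_ne_zero_iff injk).2 hb
  have ncc : cc ≠ 0 := (Polynomial.map_ne_zero_iff injk).2 hsub
  have hprod : (a * b * (a - b)).map (algebraMap k k') = aa * bb * cc := by
    rw [Polynomial.map_mul, Polynomial.map_mul]
  rw [hprod] at hsplit
  set Z : Finset k' := (aa * bb * cc).roots.toFinset with hZ
  have nprod : aa * bb * cc ≠ 0 := mul_ne_zero (mul_ne_zero naa nbb) ncc
  have hZmem : ∀ θ, θ ∈ Z ↔ aa.IsRoot θ ∨ bb.IsRoot θ ∨ cc.IsRoot θ := by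
    intro θ
    rw [hZ, Multiset.mem_toFinset, mem_roots nprod, IsRoot.def, eval_mul, eval_mul, mul_eq_zero,
      mul_eq_zero, or_assoc]
    rfl
  have hout : ∀ v : HeightOneSpectrum k'[X], (∀ θ ∈ Z, v ≠ pl θ) →
      aa ∉ v.asIdeal ∧ bb ∉ v.asIdeal ∧ cc ∉ v.asIdeal := by
    intro v hv
    have h3 : aa * bb * cc ∉ v.asIdeal := by
      intro hm
      obtain ⟨θ, hθ, h4⟩ := exists_root_of_mem nprod hsplit hm
      exact hv θ (Multiset.mem_toFinset.2 hθ) h4
    refine ⟨fun h => h3 ?_, fun h => h3 ?_, fun h => h3 ?_⟩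
    · exact Ideal.mul_mem_right _ _ (Ideal.mul_mem_right _ _ h)
    · exact Ideal.mul_mem_right _ _ (Ideal.mul_mem_left _ _ h)
    · exact Ideal.mul_mem_left _ _ h
  obtain ⟨c0, hc0, r0⟩ := rep h2' n0 Z (fun v hv => hloc.c0 v (hout v hv).1 (hout v hv).2.1)
  obtain ⟨c1, hc1, r1⟩ := rep h2' n1 Z (fun v hv => hloc.c1 v (hout v hv).1 (hout v hv).2.2)
  -- the three pieces
  obtain ⟨PA, hPA⟩ : ∃ PA : k' → Prop, ∀ θ, PA θ ↔ (aa.IsRoot θ ∧ par (pl θ) a0 = 1) :=
    ⟨_, fun _ => Iff.rfl⟩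
  obtain ⟨PB, hPB⟩ : ∃ PB : k' → Prop, ∀ θ, PB θ ↔ (bb.IsRoot θ ∧ par (pl θ) a0 = 1) :=
    ⟨_, fun _ => Iff.rfl⟩
  obtain ⟨PC, hPC⟩ : ∃ PC : k' → Prop, ∀ θ, PC θ ↔ (cc.IsRoot θ ∧ par (pl θ) a1 = 1) :=
    ⟨_, fun _ => Iff.rfl⟩
  set DA : Finset k' := Z.filter PA with hDA
  set DB : Finset k' := Z.filter PB with hDB
  set DC : Finset k' := Z.filter PC with hDC
  have isRoot_gal : ∀ (p : k[X]) (s : k' ≃ₐ[k] k') (θ : k'),
      (p.map (algebraMap k k')).IsRoot θ → (p.map (algebraMap k k')).IsRoot (s θ) := by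
    intro p s θ h
    rw [IsRoot.def, eval_map_algebraMap] at h ⊢
    have := (Polynomial.aeval_algHom_apply s.toAlgHom θ p)
    have h5 : aeval (s θ) p = s (aeval θ p) := this
    rw [h5, h, map_zero]
  have stab : ∀ (P : k' → Prop) (hP : ∀ (s : k' ≃ₐ[k] k') (θ : k'), P θ → P (s θ)),
      ∀ (s : k' ≃ₐ[k] k'), ∀ θ ∈ Z.filter P, s θ ∈ Z.filter P := by
    intro P hP s θ hθ
    rw [Finset.mem_filter] at hθ ⊢
    refine ⟨?_, hP s θ hθ.2⟩
    rw [hZmem]
    rcases (hZmem θ).1 hθ.1 with h | h | h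
    · exact Or.inl (isRoot_gal a s θ h)
    · exact Or.inr (Or.inl (isRoot_gal b s θ h))
    · exact Or.inr (Or.inr (isRoot_gal (a - b) s θ h))
  obtain ⟨A, hA1, hA2⟩ := desc (k := k) DA (stab PA fun s θ h => (hPA _).2
    ⟨isRoot_gal a s θ ((hPA θ).1 h).1, by rw [(key s).1]; exact ((hPA θ).1 h).2⟩)
  obtain ⟨B, hB1, hB2⟩ := desc (k := k) DB (stab PB fun s θ h => (hPB _).2
    ⟨isRoot_gal b s θ ((hPB θ).1 h).1, by rw [(key s).1]; exact ((hPB θ).1 h).2⟩)
  obtain ⟨D, hD1, hD2⟩ := desc (k := k) DC (stab PC fun s θ h => (hPC _).2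
    ⟨isRoot_gal (a - b) s θ ((hPC θ).1 h).1, by rw [(key s).2]; exact ((hPC θ).1 h).2⟩)
  have sqf : ∀ (P : k[X]) (S : Finset k'), P.map (algebraMap k k') = ∏ θ ∈ S, (X - C θ) →
      Squarefree P := by
    intro P S h
    apply Separable.squarefree
    rw [← separable_map (algebraMap k k'), h, separable_prod_X_sub_C_iff']
    intro x _ y _ h
    exact h
  have dvd : ∀ (P p : k[X]) (S : Finset k'), p ≠ 0 →
      P.map (algebraMap k k') = ∏ θ ∈ S, (X - C θ) →
      (∀ θ ∈ S, (p.map (algebraMap k k')).IsRoot θ) → P ∣ p := by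
    intro P p S hp h hr
    rw [← Polynomial.map_dvd_map' (algebraMap k k'), h]
    have hp' : p.map (algebraMap k k') ≠ 0 := (Polynomial.map_ne_zero_iff injk).2 hp
    have := (Multiset.prod_X_sub_C_dvd_iff_le_roots hp' S.val).2 (by
      rw [Multiset.le_iff_subset S.nodup]
      intro θ hθ
      exact (mem_roots hp').2 (hr θ hθ))
    exact this
  have dis : ∀ (P Q : k' → Prop), (∀ θ, P θ → Q θ → False) →
      Disjoint (Z.filter P) (Z.filter Q) := by
    intro P Q h
    rw [Finset.disjoint_left]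
    intro θ h1 h2
    exact h θ (Finset.mem_filter.1 h1).2 (Finset.mem_filter.1 h2).2
  refine ⟨A, B, D, hA1, hB1, hD1, sqf A DA hA2, sqf B DB hB2, sqf D DC hD2,
    dvd A a DA ha hA2 fun θ h => ((hPA θ).1 (Finset.mem_filter.1 h).2).1,
    dvd B b DB hb hB2 fun θ h => ((hPB θ).1 (Finset.mem_filter.1 h).2).1,
    dvd D (a - b) DC hsub hD2 fun θ h => ((hPC θ).1 (Finset.mem_filter.1 h).2).1,
    c0, c1, hc0, hc1, ?_, ?_⟩
  · rw [r0]
    congr 1
    rw [hKF, Polynomial.map_mul, hA2, hB2]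
    congr 1
    rw [← Finset.prod_union (dis PA PB fun θ h1 h2 => ((nb θ).1 ((hPA θ).1 h1).1).1
      ((hPB θ).1 h2).1)]
    refine Finset.prod_congr ?_ fun _ _ => rfl
    ext θ
    rw [Finset.mem_union, Finset.mem_filter, Finset.mem_filter, Finset.mem_filter, hPA, hPB]
    constructor
    · rintro ⟨h1, h3⟩
      rcases (hZmem θ).1 h1 with h | h | h
      · exact Or.inl ⟨h1, h, h3⟩
      · exact Or.inr ⟨h1, h, h3⟩
      · exfalso
        have h5 := hloc.c0 (pl θ) (fun h6 => ((nb θ).2.2 h).1 (mem_pl.1 h6))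
          (fun h6 => ((nb θ).2.2 h).2 (mem_pl.1 h6))
        rw [h5] at h3
        exact absurd h3 (by decide)
    · rintro (⟨h1, -, h3⟩ | ⟨h1, -, h3⟩)
      · exact ⟨h1, h3⟩
      · exact ⟨h1, h3⟩
  · rw [r1]
    congr 1
    rw [hKF, Polynomial.map_mul, hA2, hD2]
    congr 1
    rw [← Finset.prod_union (dis PA PC fun θ h1 h2 => ((nb θ).1 ((hPA θ).1 h1).1).2
      ((hPC θ).1 h2).1)]
    refine Finset.prod_congr ?_ fun _ _ => rfl
    have eqA : ∀ θ, aa.IsRoot θ → par (pl θ) a0 = par (pl θ) a1 := by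
      intro θ h
      have h5 := hloc.cA (pl θ) (fun h6 => ((nb θ).1 h).1 (mem_pl.1 h6))
          (fun h6 => ((nb θ).1 h).2 (mem_pl.1 h6))
      have : ∀ x y : ZMod 2, x + y = 0 → x = y := by decide
      exact this _ _ h5
    ext θ
    rw [Finset.mem_union, Finset.mem_filter, Finset.mem_filter, Finset.mem_filter, hPA, hPC]
    constructor
    · rintro ⟨h1, h3⟩
      rcases (hZmem θ).1 h1 with h | h | h
      · exact Or.inl ⟨h1, h, by rw [eqA θ h]; exact h3⟩
      · exfalso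
        have h5 := hloc.c1 (pl θ) (fun h6 => ((nb θ).2.1 h).1 (mem_pl.1 h6))
          (fun h6 => ((nb θ).2.1 h).2 (mem_pl.1 h6))
        rw [h5] at h3
        exact absurd h3 (by decide)
      · exact Or.inr ⟨h1, h, h3⟩
    · rintro (⟨h1, h, h3⟩ | ⟨h1, -, h3⟩)
      · exact ⟨h1, by rw [← eqA θ h]; exact h3⟩
      · exact ⟨h1, h3⟩

include hKF h2 ha hb hab hco in
/-- There are no points of order four. -/
theorem noFour (hodd : TwoTight k k' a b) :
    NoFour (crv (algebraMap k[X] K a) (algebraMap k[X] K b)) F := by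
  intro R hR
  have hsub : a - b ≠ 0 := sub_ne_zero.2 hab
  have h2K : (2 : K) ≠ 0 := by
    have h3 : algebraMap k[X] K (C (2 : k)) ≠ 0 := by
      rw [Ne, map_eq_zero_iff _ (IsFractionRing.injective k[X] K), C_eq_zero]
      exact h2
    rwa [map_ofNat, map_ofNat] at h3
  have inj := IsFractionRing.injective k[X] K
  have haK : algebraMap k[X] K a ≠ 0 := by simpa using ha
  have hbK : algebraMap k[X] K b ≠ 0 := by simpa using hb
  have habK : algebraMap k[X] K a ≠ algebraMap k[X] K b := fun h => hab (inj h)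
  have hE := isE (algebraMap k[X] K a) (algebraMap k[X] K b) F h2K haK hbK habK
  set αF := algebraMap K F (algebraMap k[X] K a) with hαF
  set βF := algebraMap K F (algebraMap k[X] K b) with hβF
  have hαβ : αF - βF = algebraMap K F (algebraMap k[X] K (a - b)) := by
    rw [map_sub, map_sub]
  have nα : αF ≠ 0 := hE.nea
  have nβ : βF ≠ 0 := hE.neb
  have nαβ : αF - βF ≠ 0 := sub_ne_zero.2 hE.neab
  have e0 := h0_sq hE R
  have e1 := h1_sq hE R
  have par_neg : ∀ (v : HeightOneSpectrum k'[X]) (x : F), par v (-x) = par v x := by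
    intro v x
    unfold par
    rw [Valuation.map_neg]
  have p0 : ∀ v : HeightOneSpectrum k'[X], par v (d0 αF βF (R + R)) = 0 := by
    intro v
    rw [← e0]
    exact par_pow_two v (h0_ne hE R)
  have p1 : ∀ v : HeightOneSpectrum k'[X], par v (d1 αF βF (R + R)) = 0 := by
    intro v
    rw [← e1]
    exact par_pow_two v (h1_ne hE R)
  have nb := fun θ : k' => not_both (a := a) (b := b) hco (pl θ)
  simp only [mem_pl] at nb
  have exA : TightRoots k k' a → ∃ θ : k', par (pl θ) αF = 1 ∧ par (pl θ) βF = 0 ∧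
      par (pl θ) (αF - βF) = 0 := by
    rintro ⟨Z, hZ1, -, hZ3, -⟩
    obtain ⟨θ, hθ⟩ := hZ1
    refine ⟨θ, par_odd hKF ha (hZ3 θ hθ), par_unit hKF hb ((nb _).1 (isRoot_of_odd (hZ3 θ hθ))).1,
      ?_⟩
    rw [hαβ]
    exact par_unit hKF hsub ((nb _).1 (isRoot_of_odd (hZ3 θ hθ))).2
  have exB : TightRoots k k' b → ∃ θ : k', par (pl θ) βF = 1 ∧ par (pl θ) αF = 0 ∧
      par (pl θ) (αF - βF) = 0 := by
    rintro ⟨Z, hZ1, -, hZ3, -⟩
    obtain ⟨θ, hθ⟩ := hZ1
    refine ⟨θ, par_odd hKF hb (hZ3 θ hθ),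
      par_unit hKF ha ((nb _).2.1 (isRoot_of_odd (hZ3 θ hθ))).1, ?_⟩
    rw [hαβ]
    exact par_unit hKF hsub ((nb _).2.1 (isRoot_of_odd (hZ3 θ hθ))).2
  have exC : TightRoots k k' (a - b) → ∃ θ : k', par (pl θ) (αF - βF) = 1 ∧ par (pl θ) αF = 0 := by
    rintro ⟨Z, hZ1, -, hZ3, -⟩
    obtain ⟨θ, hθ⟩ := hZ1
    refine ⟨θ, ?_, par_unit hKF ha ((nb _).2.2 (isRoot_of_odd (hZ3 θ hθ))).1⟩
    rw [hαβ]
    exact par_odd hKF hsub (hZ3 θ hθ)
  have z10 : (1 : ZMod 2) ≠ 0 := by decide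
  have caseA : TightRoots k k' a → (d1 αF βF (R + R) = -αF ∨
      d1 αF βF (R + R) = αF * (αF - βF)) → False := by
    intro o hd
    obtain ⟨θ, q1, q2, q3⟩ := exA o
    have := p1 (pl θ)
    rcases hd with hd | hd
    · rw [hd, par_neg, q1] at this
      exact z10 this
    · rw [hd, par_mul _ nα nαβ, q1, q3, add_zero] at this
      exact z10 this
  have caseB : TightRoots k k' b → (d0 αF βF (R + R) = αF * βF ∨
      d0 αF βF (R + R) = βF) → False := by
    intro o hd
    obtain ⟨θ, q1, q2, q3⟩ := exB o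
    have := p0 (pl θ)
    rcases hd with hd | hd
    · rw [hd, par_mul _ nα nβ, q1, q2, zero_add] at this
      exact z10 this
    · rw [hd, q1] at this
      exact z10 this
  have caseC : TightRoots k k' (a - b) → (d1 αF βF (R + R) = αF * (αF - βF) ∨
      d1 αF βF (R + R) = βF - αF) → False := by
    intro o hd
    obtain ⟨θ, q1, q2⟩ := exC o
    have := p1 (pl θ)
    rcases hd with hd | hd
    · rw [hd, par_mul _ nα nαβ, q1, q2, zero_add] at this
      exact z10 this
    · rw [hd, ← neg_sub, par_neg, q1] at this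
      exact z10 this
  rcases tor_d hE hR with h | ⟨h, h'⟩ | ⟨h, h'⟩ | ⟨h, h'⟩
  · exact h
  · exfalso
    rcases hodd with ⟨o1, o2⟩ | ⟨o1, o2⟩ | ⟨o1, o2⟩
    · exact caseA o1 (Or.inl h')
    · exact caseA o1 (Or.inl h')
    · exact caseB o1 (Or.inl h)
  · exfalso
    rcases hodd with ⟨o1, o2⟩ | ⟨o1, o2⟩ | ⟨o1, o2⟩
    · exact caseA o1 (Or.inr h')
    · exact caseA o1 (Or.inr h')
    · exact caseC o2 (Or.inl h')
  · exfalso
    rcases hodd with ⟨o1, o2⟩ | ⟨o1, o2⟩ | ⟨o1, o2⟩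
    · exact caseB o2 (Or.inr h)
    · exact caseC o2 (Or.inr h')
    · exact caseB o1 (Or.inr h)

end core

end

end Pool.Agent.X243.FL
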