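import Pool.Agent.TH115.GD.Bnd
import Pool.Agent.TH115.GD.Div
import Pool.Agent.X243.FL.Tight

/-!
Triples of locally soluble and fixed pairs.
-/

set_option autoImplicit false
set_option linter.all false

open Polynomial IsDedekindDomain WeierstrassCurve WeierstrassCurve.Affine
open scoped Classical

namespace Pool.Agent.X243.FL

open Pool.Agent.TH115.GD

section core

variable {k k' K F : Type} [Field k] [Field k'] [Algebra k k'] [Field K] [Algebra k[X] K]
    [Field F] [Algebra k'[X] F] [IsFractionRing k'[X] F] [Algebra K F]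

variable (hT : IsTower k k' K F) (h2 : (2 : k) ≠ 0) {a b : k[X]} (ha : a ≠ 0) (hb : b ≠ 0)
  (hab : a ≠ b) (hco : IsCoprime a b)
  (hsep : ∀ π : k[X], Irreducible π → π ∣ a * b * (a - b) → π.Separable)
  (hodd : TwoTight k k' a b)

include hT h2 ha hb hab hco hsep hodd in
/-- The triple of a locally soluble and fixed pair. -/
theorem triple_of {a0 a1 : F} (n0 : a0 ≠ 0) (n1 : a1 ≠ 0)
    (hls : LSg k' (crv (algebraMap k[X] K a) (algebraMap k[X] K b)) (algebraMap k[X] K a)
      (algebraMap k[X] K b) a0 a1)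
    (hfix : FixedMod (crv (algebraMap k[X] K a) (algebraMap k[X] K b)) (algebraMap k[X] K a)
      (algebraMap k[X] K b) (Sep F) a0 a1) :
    ∃ t ∈ Triples a b, SqEq a0 (emb k K F (t.1 * t.2.1)) ∧ SqEq a1 (emb k K F (t.1 * t.2.2)) := by
  haveI := hT.sep
  haveI := hT.fracK
  have hKF := hT.map
  have h2K : (2 : K) ≠ 0 := tt h2
  have inj := IsFractionRing.injective k[X] K
  have haK : algebraMap k[X] K a ≠ 0 := by simpa using ha
  have hbK : algebraMap k[X] K b ≠ 0 := by simpa using hb
  have habK : algebraMap k[X] K a ≠ algebraMap k[X] K b := fun h => hab (inj h)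
  have hsub : a - b ≠ 0 := sub_ne_zero.2 hab
  have injk := (algebraMap k k').injective
  have hprod : a * b * (a - b) ≠ 0 := mul_ne_zero (mul_ne_zero ha hb) hsub
  have hs : ((a * b * (a - b)).map (algebraMap k k')).Splits := splits_of_sep hprod hsep
  have ho : TwoTight k k' a b := hodd
  obtain ⟨hfin, hinf⟩ := hls
  have vle : ∀ (v : HeightOneSpectrum k'[X]) (p : k[X]),
      v.valuation F (algebraMap K F (algebraMap k[X] K p)) ≤ 1 := by
    intro v p
    rw [hKF]
    exact v.valuation_le_one _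
  have vone : ∀ (v : HeightOneSpectrum k'[X]) (p : k[X]),
      p.map (algebraMap k k') ∉ v.asIdeal →
      v.valuation F (algebraMap K F (algebraMap k[X] K p)) = 1 := by
    intro v p hp
    rw [hKF, v.valuation_of_algebraMap, HeightOneSpectrum.intValuation_eq_one_iff]
    exact hp
  have gfin := fun v : HeightOneSpectrum k'[X] => gen_loc (F := F) (L := Comp k'[X] F v)
    h2K haK hbK habK
    (Valued.v (R := v.adicCompletion F) (Γ₀ := WithZero (Multiplicative ℤ)))
    (v.valuation F) (wFin v) (M := 1) ⟨1, (mul_one 1).symm⟩ one_ne_zero (vle v a) (vle v b)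
    (hfin v)
  have hloc : LocPar (k' := k') a b a0 a1 := by
    refine ⟨fun v h h' => ?_, fun v h h' => ?_, fun v h h' => ?_⟩
    · rw [par_eq_zero]
      exact (gfin v).1 (vone v a h) (vone v b h')
    · rw [par_eq_zero]
      refine (gfin v).2.1 (vone v a h) ?_
      rw [← map_sub]
      exact vone v (a - b) h'
    · rw [← par_mul v n0 n1, par_eq_zero]
      refine (gfin v).2.2 (vone v b h) ?_
      rw [← map_sub]
      exact vone v (a - b) h'
  obtain ⟨A, B, D, hA, hB, hD, sA, sB, sD, dA, dB, dD, c0, c1, hc0, hc1, w0, w1⟩ :=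
    global_core (k' := k') hKF h2 ha hb hab hco hs ho n0 n1 hloc hfix
  have hInf : InfCond a b A B D := by
    intro hN
    set N := max a.natDegree b.natDegree with hNdef
    have vdeg : ∀ p : k[X], p ≠ 0 → vInf k' F (algebraMap K F (algebraMap k[X] K p)) =
        WithZero.exp (p.natDegree : ℤ) := by
      intro p hp
      rw [hKF, vInf_poly ((Polynomial.map_ne_zero_iff injk).2 hp), natDegree_map]
    have vle' : ∀ p : k[X], p ≠ 0 → p.natDegree ≤ N →
        vInf k' F (algebraMap K F (algebraMap k[X] K p)) ≤ WithZero.exp (N : ℤ) := by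
      intro p hp h
      rw [vdeg p hp, WithZero.exp_le_exp]
      exact_mod_cast h
    have ginf := gen_loc (F := F) (L := CompInf k' F) h2K haK hbK habK
      (Valued.v (R := (pl (0 : k')).adicCompletion (AtInf F))
        (Γ₀ := WithZero (Multiplicative ℤ)))
      (vInf k' F) wInf (M := WithZero.exp (N : ℤ)) (isSquare_exp.2 (by exact_mod_cast hN))
      WithZero.exp_ne_zero (vle' a ha (le_max_left _ _)) (vle' b hb (le_max_right _ _)) hinf
    have even_of : ∀ (p : k[X]) (q : F) (x : F), p ≠ 0 → q ≠ 0 →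
        x = q ^ 2 * algebraMap K F (algebraMap k[X] K p) → IsSquare (vInf k' F x) →
        Even p.natDegree := by
      intro p q x hp hq hx hs
      rw [hx, map_mul, map_pow, pow_two] at hs
      have h3 := Pool.Agent.W309.TD.IsSquare.of_mul_left' ⟨vInf k' F q, rfl⟩
        (mul_ne_zero ((Valuation.ne_zero_iff _).2 hq) ((Valuation.ne_zero_iff _).2 hq)) hs
      rw [vdeg p hp, isSquare_exp] at h3
      exact_mod_cast h3
    refine ⟨fun h => ?_, fun h h' => ?_, fun h h' => ?_⟩
    · refine even_of (A * B) c0 a0 (mul_ne_zero hA.ne_zero hB.ne_zero) hc0 w0 (ginf.1 ?_ ?_)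
      · rw [vdeg a ha]
        congr 2
        rw [hNdef, h, max_self]
      · rw [vdeg b hb]
        congr 2
        rw [hNdef, h, max_self]
    · refine even_of (A * D) c1 a1 (mul_ne_zero hA.ne_zero hD.ne_zero) hc1 w1 (ginf.2.1 ?_ ?_)
      · rw [vdeg a ha, h]
      · rw [← map_sub, vdeg (a - b) hsub, h']
    · refine even_of (B * D) (c0 * c1 * algebraMap K F (algebraMap k[X] K A)) (a0 * a1)
        (mul_ne_zero hB.ne_zero hD.ne_zero) ?_ ?_ (ginf.2.2 ?_ ?_)
      · have : algebraMap K F (algebraMap k[X] K A) ≠ 0 := by simpa using hA.ne_zero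
        exact mul_ne_zero (mul_ne_zero hc0 hc1) this
      · rw [w0, w1, map_mul, map_mul, map_mul, map_mul, map_mul, map_mul]
        ring
      · rw [vdeg b hb, h]
      · rw [← map_sub, vdeg (a - b) hsub, h']
  exact ⟨(A, B, D), ⟨hA, hB, hD, sA, sB, sD, dA, dB, dD, hInf⟩, ⟨c0, hc0, w0⟩, ⟨c1, hc1, w1⟩⟩

/-- Descent of halves from `F` to `K`. -/
theorem half_aux {K F : Type} [Field K] [Field F] [Algebra K F] {α β : K} (h2K : (2 : K) ≠ 0)
    (haK : α ≠ 0) (hbK : β ≠ 0) (habK : α ≠ β) [IsGalois K (Sep F)]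
    (hz : ∀ (a0 a1 : F), a0 ≠ 0 → a1 ≠ 0 → FixedMod (crv α β) α β (Sep F) a0 a1 →
      ∀ (τ : Sep F ≃ₐ[K] Sep F) (u0 u1 : F) (T : Pt (crv α β) F),
      u0 ≠ 0 → u1 ≠ 0 → T + T = 0 →
      τ (algebraMap F (Sep F) a0) = algebraMap F (Sep F)
        (u0 ^ 2 * (a0 * d0 (algebraMap K F α) (algebraMap K F β) T)) →
      τ (algebraMap F (Sep F) a1) = algebraMap F (Sep F)
        (u1 ^ 2 * (a1 * d1 (algebraMap K F α) (algebraMap K F β) T)) → T = 0)
    (P : Pt (crv α β) K)
    (q0 : SqEq (algebraMap K F (d0 α β P)) 1) (q1 : SqEq (algebraMap K F (d1 α β P)) 1) :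
    ∃ Q : Pt (crv α β) K, Q + Q = P := by
  have d0F : d0 (algebraMap K F α) (algebraMap K F β) (act (crv α β) (incl K K F) P) =
      algebraMap K F (d0 α β P) := d0_act (crv α β) (incl K K F) α β P
  have d1F : d1 (algebraMap K F α) (algebraMap K F β) (act (crv α β) (incl K K F) P) =
      algebraMap K F (d1 α β P) := d1_act (crv α β) (incl K K F) α β P
  obtain ⟨R, hR⟩ := half_F h2K haK hbK habK (act (crv α β) (incl K K F) P)
    (by rw [d0F]; exact q0) (by rw [d1F]; exact q1)
  have hE := isE α β F h2K haK hbK habK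
  have hcomp : (incl K F (Sep F)).comp (incl K K F) = incl K K (Sep F) :=
    AlgHom.ext fun x => (IsScalarTower.algebraMap_apply K F (Sep F) x).symm
  have hrel : ∀ τ : Sep F ≃ₐ[K] Sep F, ∃ (T : Pt (crv α β) F) (u0 u1 : F), T + T = 0 ∧ u0 ≠ 0 ∧
      u1 ≠ 0 ∧ τ (algebraMap F (Sep F) (d0 (algebraMap K F α) (algebraMap K F β) R)) =
        algebraMap F (Sep F) (u0 ^ 2 * (d0 (algebraMap K F α) (algebraMap K F β) R *
          d0 (algebraMap K F α) (algebraMap K F β) T)) ∧
      τ (algebraMap F (Sep F) (d1 (algebraMap K F α) (algebraMap K F β) R)) =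
        algebraMap F (Sep F) (u1 ^ 2 * (d1 (algebraMap K F α) (algebraMap K F β) R *
          d1 (algebraMap K F α) (algebraMap K F β) T)) ∧
      act (crv α β) (rs K τ) (act (crv α β) (incl K F (Sep F)) R) =
        act (crv α β) (incl K F (Sep F)) (R + T) := by
    intro τ
    set R' := act (crv α β) (incl K F (Sep F)) R with hR'
    have hRR : R' + R' = act (crv α β) (incl K K (Sep F)) P := by
      rw [hR', ← map_add, hR, act_act, hcomp]
    have hfixP : act (crv α β) (rs K τ) (act (crv α β) (incl K K (Sep F)) P) =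
        act (crv α β) (incl K K (Sep F)) P :=
      rs_act_incl (crv α β) τ P
    set T' := act (crv α β) (rs K τ) R' - R' with hT'
    have hTT' : T' + T' = 0 := by
      rw [hT', sub_add_sub_comm, ← map_add, hRR, hfixP, sub_self]
    have hTfix : ∀ σ : Sep F ≃ₐ[F] Sep F, act (crv α β) (rs K σ) T' = T' := fun σ =>
      act_tor (crv α β) (isE α β (Sep F) h2K haK hbK habK) _ hTT'
    obtain ⟨T, hTF⟩ := fixed_point (K := K) (F := F) (crv α β) T' hTfix
    have hTT : T + T = 0 := by
      apply act_inj (crv α β) (incl K F (Sep F))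
      rw [map_add, hTF, hTT', map_zero]
    have hτR : act (crv α β) (rs K τ) R' = act (crv α β) (incl K F (Sep F)) (R + T) := by
      rw [map_add, hTF, hT']; abel
    obtain ⟨u0, u1, m0, m1, f0, f1⟩ := d_add (K := K) (F := F) (Ω := Sep F) (crv α β)
      (isE α β (Sep F) h2K haK hbK habK) R T
    have g0 := d0_act (crv α β) (rs K τ) (algebraMap K (Sep F) α) (algebraMap K (Sep F) β) R'
    have g1 := d1_act (crv α β) (rs K τ) (algebraMap K (Sep F) α) (algebraMap K (Sep F) β) R'
    have ga : incl K F (Sep F) (algebraMap K F α) = algebraMap K (Sep F) α :=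
      (IsScalarTower.algebraMap_apply K F (Sep F) α).symm
    have gb : incl K F (Sep F) (algebraMap K F β) = algebraMap K (Sep F) β :=
      (IsScalarTower.algebraMap_apply K F (Sep F) β).symm
    rw [(rs K τ).commutes, (rs K τ).commutes, hτR, ← ga, ← gb, d0_act, hR', d0_act] at g0
    rw [(rs K τ).commutes, (rs K τ).commutes, hτR, ← ga, ← gb, d1_act, hR', d1_act] at g1
    exact ⟨T, u0, u1, hTT, m0, m1, by rw [← f0]; exact g0.symm, by rw [← f1]; exact g1.symm, hτR⟩
  have hfix : ∀ τ : Sep F ≃ₐ[K] Sep F,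
      act (crv α β) (rs K τ) (act (crv α β) (incl K F (Sep F)) R) =
        act (crv α β) (incl K F (Sep F)) R := by
    intro τ
    obtain ⟨T, u0, u1, hTT, m0, m1, r0, r1, hτR⟩ := hrel τ
    have hT0 : T = 0 := hz _ _ (d0_ne hE R) (d1_ne hE R) (fun τ => by
      obtain ⟨T, u0, u1, hTT, m0, m1, r0, r1, -⟩ := hrel τ
      exact ⟨T, u0, u1, hTT, m0, m1, r0, r1⟩) τ u0 u1 T m0 m1 hTT r0 r1
    rw [hτR, hT0, add_zero]
  obtain ⟨Q, hQ⟩ := fixed_point (K := K) (F := K) (Ω := Sep F) (crv α β)
    (act (crv α β) (incl K F (Sep F)) R) hfix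
  refine ⟨Q, act_inj (crv α β) (incl K K (Sep F)) ?_⟩
  rw [map_add, hQ, ← map_add, hR, act_act, hcomp]

include hT h2 ha hb hab hco hsep hodd in
/-- Points over `K` with coordinates that are squares in `F` are divisible by two over `K`. -/
theorem half_K (P : Pt (crv (algebraMap k[X] K a) (algebraMap k[X] K b)) K)
    (q0 : SqEq (algebraMap K F (d0 (algebraMap k[X] K a) (algebraMap k[X] K b) P)) 1)
    (q1 : SqEq (algebraMap K F (d1 (algebraMap k[X] K a) (algebraMap k[X] K b) P)) 1) :
    ∃ Q : Pt (crv (algebraMap k[X] K a) (algebraMap k[X] K b)) K, Q + Q = P := by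
  haveI := hT.sep
  haveI := hT.fracK
  have hKF := hT.map
  have h2K : (2 : K) ≠ 0 := tt h2
  have inj := IsFractionRing.injective k[X] K
  have haK : algebraMap k[X] K a ≠ 0 := by simpa using ha
  have hbK : algebraMap k[X] K b ≠ 0 := by simpa using hb
  have habK : algebraMap k[X] K a ≠ algebraMap k[X] K b := fun h => hab (inj h)
  haveI : IsSepClosure K (Sep F) := sepKΩ hKF
  haveI : Algebra.IsSeparable K (Sep F) := IsSepClosure.separable
  haveI : IsGalois K (Sep F) := inferInstance
  exact half_aux h2K haK hbK habK (fun a0 a1 n0 n1 hfix τ u0 u1 T m0 m1 hTT e0 e1 =>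
    tz hKF h2 ha hb hab hco hodd n0 n1 hfix τ m0 m1 hTT e0 e1) P q0 q1

end core

end Pool.Agent.X243.FL
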