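import Pool.Agent.TH115.GD.Gen2
import Pool.Agent.X243.FL.Bnd

/-!
The triple of a Tate class.
-/

set_option autoImplicit false
set_option linter.all false

open Polynomial IsDedekindDomain WeierstrassCurve WeierstrassCurve.Affine
open scoped Classical

namespace Pool.Agent.X243.FL

open Pool.Agent.TH115.GD

section core

variable {k k' K F : Type} [Field k] [Field k'] [Algebra k k'] [Field K] [Algebra k[X] K]
    [Field F] [Algebra k'[X] F] [IsFractionRing k'[X] F] [Algebra K F]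

variable (hT : IsTower k k' K F) (h2 : (2 : k) ≠ 0) {a b : k[X]} (ha : a ≠ 0) (hb : b ≠ 0)
  (hab : a ≠ b) (hco : IsCoprime a b)
  (hsep : ∀ π : k[X], Irreducible π → π ∣ a * b * (a - b) → π.Separable)
  (hodd : TwoTight k k' a b)

include hT h2 ha hb hab hco hsep hodd in
/-- The triple of a Tate class and a point of order two. -/
theorem triple_cls {c : ℕ → (Sep F ≃ₐ[F] Sep F) →
      Pt (crv (algebraMap k[X] K a) (algebraMap k[X] K b)) (Sep F)}
    (hc : IsTateClass k' (crv (algebraMap k[X] K a) (algebraMap k[X] K b)) c)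
    (T : Pt (crv (algebraMap k[X] K a) (algebraMap k[X] K b)) K) :
    ∃ t ∈ Triples a b, ∃ a0 a1 : F, a0 ≠ 0 ∧ a1 ≠ 0 ∧
      Rep (crv (algebraMap k[X] K a) (algebraMap k[X] K b)) (algebraMap k[X] K a) (c 1) a0 a1 ∧
      SqEq (a0 * algebraMap K F (d0 (algebraMap k[X] K a) (algebraMap k[X] K b) T))
        (emb k K F (t.1 * t.2.1)) ∧
      SqEq (a1 * algebraMap K F (d1 (algebraMap k[X] K a) (algebraMap k[X] K b) T))
        (emb k K F (t.1 * t.2.2)) := by
  haveI := hT.sep
  haveI := hT.fracK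
  have h2K : (2 : K) ≠ 0 := tt h2
  have inj := IsFractionRing.injective k[X] K
  have haK : algebraMap k[X] K a ≠ 0 := by simpa using ha
  have hbK : algebraMap k[X] K b ≠ 0 := by simpa using hb
  have habK : algebraMap k[X] K a ≠ algebraMap k[X] K b := fun h => hab (inj h)
  have hE : ∀ (L : Type) [Field L] [Algebra K L],
      IsE ((crv (algebraMap k[X] K a) (algebraMap k[X] K b)).baseChange L).toAffine
      (algebraMap K L (algebraMap k[X] K a)) (algebraMap K L (algebraMap k[X] K b)) :=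
    fun L _ _ => isE _ _ L h2K haK hbK habK
  have hprod : a * b * (a - b) ≠ 0 := mul_ne_zero (mul_ne_zero ha hb) (sub_ne_zero.2 hab)
  have hs : ((a * b * (a - b)).map (algebraMap k k')).Splits := splits_of_sep hprod hsep
  have ho : TwoTight k k' a b := hodd
  have hc2 : ∀ σ, c 1 σ + c 1 σ = 0 := fun σ => by
    rw [← two_nsmul, hc.tc.two 0 σ, hc.tc.zero]
  obtain ⟨t0, t1, a0, a1, n0, n1, e0, e1, k0, k1⟩ := kummer_rep _ (hE (Sep F)) (hc.tc.coc 1) hc2
  have ha0 : a0 ≠ 0 := by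
    rintro rfl
    rw [map_zero] at e0
    exact pow_ne_zero 2 n0 e0
  have ha1 : a1 ≠ 0 := by
    rintro rfl
    rw [map_zero] at e1
    exact pow_ne_zero 2 n1 e1
  have hls : LSg k' (crv (algebraMap k[X] K a) (algebraMap k[X] K b)) (algebraMap k[X] K a)
      (algebraMap k[X] K b) a0 a1 :=
    ⟨fun v => loc_rep _ (hE _) hc2 ((hc.loc 1).1 v) n0 n1 e0 e1 k0 k1,
      loc_rep _ (hE _) hc2 (hc.loc 1).2 n0 n1 e0 e1 k0 k1⟩
  have hfix : FixedMod (crv (algebraMap k[X] K a) (algebraMap k[X] K b)) (algebraMap k[X] K a)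
      (algebraMap k[X] K b) (Sep F) a0 a1 :=
    fixed_rep _ (hE _) (preserves hT.map) (noFour (k' := k') hT.map h2 ha hb hab hco ho) hc.tc
      hc.inv n0 n1 e0 e1 k0 k1
  have hEK := isE (algebraMap k[X] K a) (algebraMap k[X] K b) K h2K haK hbK habK
  obtain ⟨t, ht, q0, q1⟩ := triple_of hT h2 ha hb hab hco hsep hodd
    (mul_ne_zero ha0 ((_root_.map_ne_zero (algebraMap K F)).2 (d0_ne hEK T)))
    (mul_ne_zero ha1 ((_root_.map_ne_zero (algebraMap K F)).2 (d1_ne hEK T)))
    ⟨fun v => (hls.1 v).mul h2K haK hbK habK (locSol_pt h2K haK hbK habK T),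
      hls.2.mul h2K haK hbK habK (locSol_pt h2K haK hbK habK T)⟩
    (hfix.mul h2K haK hbK habK (fixed_pt T))
  exact ⟨t, ht, a0, a1, ha0, ha1, ⟨t0, t1, n0, n1, e0, e1, k0, k1⟩, q0, q1⟩

end core

end Pool.Agent.X243.FL
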