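import Pool.Agent.TH115.SD.Xi
import Pool.Agent.X243.FL.Gen

/-!
The relation of level two.
-/

set_option autoImplicit false
set_option linter.all false

open Polynomial IsDedekindDomain WeierstrassCurve WeierstrassCurve.Affine
open scoped Classical

namespace Pool.Agent.X243.FL

open Pool.Agent.TH115.GD

section one

universe u

variable {K F Ω : Type u} [Field K] [Field F] [Field Ω] [Algebra K F] [Algebra F Ω] [Algebra K Ω]
  [IsScalarTower K F Ω] [IsGalois F Ω] [IsSepClosed Ω]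
  (W : WeierstrassCurve K) {a b : K}
  (hL : IsE (W.baseChange Ω).toAffine (algebraMap K Ω a) (algebraMap K Ω b))

include hL in
/-- The point in the relation of level two exists. -/
theorem Xi_exist_aux (hN : Preserves K F Ω) (hF : NoFour W F)
    (hz : ∀ (a0 a1 : F), a0 ≠ 0 → a1 ≠ 0 → FixedMod W a b Ω a0 a1 →
      ∀ (τ : Ω ≃ₐ[K] Ω) (u0 u1 : F) (T : Pt W F), u0 ≠ 0 → u1 ≠ 0 → T + T = 0 →
      τ (algebraMap F Ω a0) = algebraMap F Ω
        (u0 ^ 2 * (a0 * d0 (algebraMap K F a) (algebraMap K F b) T)) →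
      τ (algebraMap F Ω a1) = algebraMap F Ω
        (u1 ^ 2 * (a1 * d1 (algebraMap K F a) (algebraMap K F b) T)) → T = 0)
    {c : ℕ → (Ω ≃ₐ[F] Ω) → Pt W Ω} (hc : IsTC W c) (hi : IsInv W c) (τ : Ω ≃ₐ[K] Ω) :
    ∃ R, Xi W c τ R := by
  obtain ⟨m, Q, hQ, hinv⟩ := hi τ
  have hpow : ∀ (j k : ℕ) (σ), 2 ^ k • c (k + j) σ = c j σ := by
    intro j k
    induction k with
    | zero => intro σ; rw [pow_zero, one_smul, zero_add]
    | succ k ih =>
      intro σ
      rw [pow_succ, mul_smul, show k + 1 + j = (k + j) + 1 by ring, hc.two, ih]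
  set R := Q (m + 2) with hR
  have hrel : ∀ σ σ' : Ω ≃ₐ[F] Ω, (∀ x, τ (σ' x) = σ (τ x)) →
      act W (ak τ) (c 2 σ') - c 2 σ = act W (rs K σ) R - R := by
    intro σ σ' h
    rw [← hinv (m + 2) σ σ' h, smul_sub, ← map_nsmul, hpow, hpow]
  have hQpow : ∀ (k : ℕ), 2 ^ k • Q k = 0 := by
    intro k
    induction k with
    | zero => rw [hQ.zero, smul_zero]
    | succ k ih =>
      rw [pow_succ, mul_smul, hQ.two, ih]
  have hrel1 : ∀ σ σ' : Ω ≃ₐ[F] Ω, (∀ x, τ (σ' x) = σ (τ x)) →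
      act W (ak τ) (c 1 σ') - c 1 σ = act W (rs K σ) (R + R) - (R + R) := by
    intro σ σ' h
    have e := hrel σ σ' h
    rw [← c_two hc, ← c_two hc, map_add, map_add]
    have : act W (ak τ) (c 2 σ') + act W (ak τ) (c 2 σ') - (c 2 σ + c 2 σ) =
      (act W (ak τ) (c 2 σ') - c 2 σ) + (act W (ak τ) (c 2 σ') - c 2 σ) := by abel
    rw [this, e]; abel
  have hfix : ∀ σ : Ω ≃ₐ[F] Ω, act W (rs K σ) ((R + R) + (R + R)) =
      (R + R) + (R + R) := by
    intro σ
    obtain ⟨σ', hσ'⟩ := exists_conj hN τ σ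
    have e := hrel1 σ σ' hσ'
    have e1 : (act W (ak τ) (c 1 σ') - c 1 σ) + (act W (ak τ) (c 1 σ') - c 1 σ) = 0 := by
      have h1 : act W (ak τ) (c 1 σ') + act W (ak τ) (c 1 σ') = 0 :=
        (two_act W (ak τ) _).2 (c_one hc σ')
      rw [sub_add_sub_comm, h1, c_one hc, sub_zero]
    rw [e, sub_add_sub_comm, ← map_add] at e1
    exact sub_eq_zero.1 e1
  obtain ⟨T, hTT⟩ := fixed_point (K := K) (F := F) W _ hfix
  have hT2 : T + T = 0 := by
    apply two_of_pow W hF (m + 2)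
    apply act_inj W (incl K F Ω)
    rw [map_nsmul, hTT, map_zero, smul_add, smul_add, hR, hQpow]
    simp
  obtain ⟨t0, t1, a0, a1, n0, n1, e0, e1, k0, k1⟩ := kummer_rep W hL (hc.coc 1) (c_one hc)
  have ha0 : a0 ≠ 0 := by
    rintro rfl
    rw [map_zero] at e0
    exact pow_ne_zero 2 n0 e0
  have ha1 : a1 ≠ 0 := by
    rintro rfl
    rw [map_zero] at e1
    exact pow_ne_zero 2 n1 e1
  obtain ⟨u0, u1, hu0, hu1, f0, f1⟩ := fixed_rep' W hL hN (c_one hc) hrel1 hTT n0 n1 e0 e1 k0 k1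
  have hT0 : T = 0 := hz _ _ ha0 ha1 (fixed_rep W hL hN hF hc hi n0 n1 e0 e1 k0 k1) τ _ _ _
    hu0 hu1 hT2 f0 f1
  refine ⟨R, ?_, hrel⟩
  rw [← hTT, hT0, map_zero]

end one

section core

variable {k k' K F : Type} [Field k] [Field k'] [Algebra k k'] [Field K] [Algebra k[X] K]
    [Field F] [Algebra k'[X] F] [IsFractionRing k'[X] F] [Algebra K F]

variable (hT : IsTower k k' K F) (h2 : (2 : k) ≠ 0) {a b : k[X]} (ha : a ≠ 0) (hb : b ≠ 0)
  (hab : a ≠ b) (hco : IsCoprime a b)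
  (hsep : ∀ π : k[X], Irreducible π → π ∣ a * b * (a - b) → π.Separable)
  (hodd : TwoTight k k' a b)

include hT h2 ha hb hab hco hsep hodd in
theorem noFourF : NoFour (crv (algebraMap k[X] K a) (algebraMap k[X] K b)) F := by
  haveI := hT.sep
  haveI := hT.fracK
  have hprod : a * b * (a - b) ≠ 0 := mul_ne_zero (mul_ne_zero ha hb) (sub_ne_zero.2 hab)
  have hs : ((a * b * (a - b)).map (algebraMap k k')).Splits := splits_of_sep hprod hsep
  have ho : TwoTight k k' a b := hodd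
  exact noFour (k' := k') (F := F) hT.map h2 ha hb hab hco ho

include hT h2 ha hb hab hco hsep hodd in
/-- The point in the relation of level two exists. -/
theorem Xi_exist {c : ℕ → (Sep F ≃ₐ[F] Sep F) →
      Pt (crv (algebraMap k[X] K a) (algebraMap k[X] K b)) (Sep F)}
    (hc : IsTC (crv (algebraMap k[X] K a) (algebraMap k[X] K b)) c)
    (hi : IsInv (crv (algebraMap k[X] K a) (algebraMap k[X] K b)) c)
    (τ : Sep F ≃ₐ[K] Sep F) :
    ∃ R, Xi (crv (algebraMap k[X] K a) (algebraMap k[X] K b)) c τ R := by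
  haveI := hT.sep
  haveI := hT.fracK
  have h2K : (2 : K) ≠ 0 := tt h2
  have inj := IsFractionRing.injective k[X] K
  have haK : algebraMap k[X] K a ≠ 0 := by simpa using ha
  have hbK : algebraMap k[X] K b ≠ 0 := by simpa using hb
  have habK : algebraMap k[X] K a ≠ algebraMap k[X] K b := fun h => hab (inj h)
  exact Xi_exist_aux _ (isE _ _ (Sep F) h2K haK hbK habK) (preserves hT.map)
    (noFourF hT h2 ha hb hab hco hsep hodd) (fun a0 a1 n0 n1 hfix τ u0 u1 T m0 m1 hTT e0 e1 =>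
    tz hT.map h2 ha hb hab hco hodd n0 n1 hfix τ m0 m1 hTT e0 e1) hc hi τ

end core

end Pool.Agent.X243.FL
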