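import Pool.Agent.TH115.SD.Cond
import Pool.Agent.X243.FL.Sec

/-!
The condition at infinity.
-/

set_option autoImplicit false
set_option linter.all false

open Polynomial IsDedekindDomain WeierstrassCurve WeierstrassCurve.Affine
open scoped Classical

namespace Pool.Agent.X243.FL

open Pool.Agent.TH115.GD

section core

variable {k k' K F : Type} [Field k] [Field k'] [Algebra k k'] [Field K] [Algebra k[X] K]
    [Field F] [Algebra k'[X] F] [IsFractionRing k'[X] F] [Algebra K F]

variable (hT : IsTower k k' K F) (h2 : (2 : k) ≠ 0) {a b : k[X]} (ha : a ≠ 0) (hb : b ≠ 0)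
  (hab : a ≠ b) (hco : IsCoprime a b)
  (hsep : ∀ π : k[X], Irreducible π → π ∣ a * b * (a - b) → π.Separable)
  (hodd : TwoTight k k' a b)

include hT h2 ha hb hab hco hsep hodd in
/-- The character at infinity. -/
theorem inf_sign (hNodd : Odd (max a.natDegree b.natDegree)) {c : ℕ → (Sep F ≃ₐ[F] Sep F) →
      Pt (crv (algebraMap k[X] K a) (algebraMap k[X] K b)) (Sep F)}
    (hc : IsTateClass k' (crv (algebraMap k[X] K a) (algebraMap k[X] K b)) c)
    {a0 a1 : F} (hrep : Rep (crv (algebraMap k[X] K a) (algebraMap k[X] K b))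
      (algebraMap k[X] K a) (c 1) a0 a1)
    {i : Fin 3} {t : Sep F} {u : k[X]}
    (ht2 : t ^ 2 = algebraMap K (Sep F) (algebraMap k[X] K u))
    {s : k' ≃ₐ[k] k'} {η : ℤˣ} (hη : ∀ τ : Sep F ≃ₐ[K] Sep F, Lifts s τ →
      PsiRel (crv (algebraMap k[X] K a) (algebraMap k[X] K b)) (algebraMap k[X] K a) c i t τ η) :
    ∃ T : Pt (crv (algebraMap k[X] K a) (algebraMap k[X] K b)) K, T + T = 0 ∧
      (∀ P : k[X], P ≠ 0 → Even P.natDegree →
        dd i (algebraMap k[X] K a) (algebraMap k[X] K b) T * algebraMap k[X] K u =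
        algebraMap k[X] K P →
      ∀ ω : k', ω ^ 2 = algebraMap k k' P.leadingCoeff → s ω = ((η : ℤ) : k') * ω) ∧
      ∃ c0 c1 : CompInf k' F, c0 ≠ 0 ∧ c1 ≠ 0 ∧
        algebraMap F (CompInf k' F) a0 = c0 ^ 2 * algebraMap K (CompInf k' F)
          (d0 (algebraMap k[X] K a) (algebraMap k[X] K b) T) ∧
        algebraMap F (CompInf k' F) a1 = c1 ^ 2 * algebraMap K (CompInf k' F)
          (d1 (algebraMap k[X] K a) (algebraMap k[X] K b) T) := by
  haveI := hT.sep
  haveI := hT.fracK
  haveI : IsSepClosed k' := IsSepClosure.sep_closed k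
  have h2' : (2 : k') ≠ 0 := by
    rw [← map_ofNat (algebraMap k k') 2]
    exact (_root_.map_ne_zero _).2 h2
  have h2K : (2 : K) ≠ 0 := tt h2
  have inj := IsFractionRing.injective k[X] K
  have haK : algebraMap k[X] K a ≠ 0 := by simpa using ha
  have hbK : algebraMap k[X] K b ≠ 0 := by simpa using hb
  have habK : algebraMap k[X] K a ≠ algebraMap k[X] K b := fun h => hab (inj h)
  obtain ⟨γ, hγ, hγw⟩ := comp_aut (R := k'[X]) (F := AtInf F) (pl (0 : k'))
    (es (AtInf F) (s : k' ≃+* k')) (es_val (F := AtInf F) 0 (s : k' ≃+* k') (map_zero _))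
  have hsq : ∀ x : CompInf k' F, x ≠ 0 → IsSquare (wi k' F x) → ∃ z, z ≠ 0 ∧ x = z ^ 2 :=
    fun x hx h => even_sq (F := AtInf F) (0 : k') h2' hx h
  have hp := oddPl hT ha hb hab hNodd
  let γ' : CompInf k' F ≃+* CompInf k' F := γ
  have hγ' : ∀ x : F, γ' (algebraMap F (CompInf k' F) x) =
      algebraMap F (CompInf k' F) (es F (s : k' ≃+* k') x) := by
    intro x
    rw [← es_inf]
    exact hγ x
  obtain ⟨T, hTS, h1, h3⟩ := loc_sign_gen (L := CompInf k' F) hT h2 ha hb hab hco hsep hodd hc.tc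
    hc.inv (hc.loc 2).2 hrep ht2 hη hγ' {T | T + T = 0} (fun T hT => hT)
    (hdivInf h2K haK hbK habK hp hsq) (hsgInf h2K haK hbK habK hp i)
  refine ⟨T, hTS, fun P hP hPe hPu ω hω => ?_, h3⟩
  obtain ⟨m, hm⟩ := hPe
  have hXK : algebraMap k[X] K (X ^ m) ≠ 0 := by simp
  set P' := P.map (algebraMap k k') with hP'
  have hP0' : P' ≠ 0 := (Polynomial.map_ne_zero_iff (algebraMap k k').injective).2 hP
  set w : K := algebraMap k[X] K P / algebraMap k[X] K (X ^ m) ^ 2 with hw
  -- the element `w` in the completion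
  have hx : algebraMap K F w = infMap k' F (reverse P') := by
    rw [hw, map_div₀, map_pow, hT.map, hT.map, ← hP', std_inf (F := F) P', Polynomial.map_pow,
      map_X, map_pow]
    have hX0 : algebraMap k'[X] F X ≠ 0 := by simp
    have hdeg : P'.natDegree = m * 2 := by rw [hP', natDegree_map, hm]; ring
    rw [hdeg, ← pow_mul, mul_div_assoc, div_self (pow_ne_zero _ hX0), mul_one]
  have hxL : algebraMap K (CompInf k' F) w =
      algebraMap (AtInf F) (Comp k'[X] (AtInf F) (pl (0 : k')))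
        (algebraMap k'[X] (AtInf F) (reverse P')) := by
    rw [IsScalarTower.algebraMap_apply K F (CompInf k' F), hx]
    rfl
  have hev : (reverse P').eval 0 ≠ 0 := by
    rw [← coeff_zero_eq_eval_zero, coeff_zero_reverse]
    exact leadingCoeff_ne_zero.2 hP0'
  have hw1 : wi k' F (algebraMap K (CompInf k' F) w) = 1 := by
    rw [hxL]
    show wv (R := k'[X]) (F := AtInf F) (pl (0 : k')) _ = 1
    rw [wv_coe]
    exact val_eq_one (F := AtInf F) 0 hev
  have hwL0 : algebraMap K (CompInf k' F) w ≠ 0 := by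
    intro h
    rw [h, map_zero] at hw1
    exact zero_ne_one hw1
  obtain ⟨z, z0, hz⟩ := hsq _ hwL0 ⟨1, by rw [hw1, mul_one]⟩
  obtain ⟨z', hz', hγz⟩ := h1 (algebraMap k[X] K (X ^ m)) w hXK
    (by rw [hPu, hw]; field_simp) ⟨z, hz⟩
  refine resid_sign (F := AtInf F) (0 : k') (s : k' ≃+* k') (map_zero _) hγ hγw hev
    (y := z') (by exact hz'.trans hxL) (cast_pm' η) ?_ ?_
  · rw [map_intCast]
    exact hγz
  · rw [hω, ← coeff_zero_eq_eval_zero, coeff_zero_reverse, hP',
      leadingCoeff_map_of_injective (algebraMap k k').injective]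

end core

end Pool.Agent.X243.FL
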