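import Pool.Agent.TH115.SD.Main
import Pool.Agent.X243.FL.Inf

/-!
The conditions of the second descent.
-/

set_option autoImplicit false
set_option linter.all false

open Polynomial IsDedekindDomain WeierstrassCurve WeierstrassCurve.Affine
open scoped Classical

namespace Pool.Agent.X243.FL

open Pool.Agent.TH115.GD

section core

variable {k k' K F : Type} [Field k] [Field k'] [Algebra k k'] [Field K] [Algebra k[X] K]
    [Field F] [Algebra k'[X] F] [IsFractionRing k'[X] F] [Algebra K F]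

variable (hT : IsTower k k' K F) (h2 : (2 : k) ≠ 0) {a b : k[X]} (ha : a ≠ 0) (hb : b ≠ 0)
  (hab : a ≠ b) (hco : IsCoprime a b)
  (hsep : ∀ π : k[X], Irreducible π → π ∣ a * b * (a - b) → π.Separable)
  (hodd : TwoTight k k' a b)

include hT h2 ha hb hab hco hsep hodd in
/-- The triples of the fixed classes satisfy the conditions of the second descent. -/
theorem second_cond {c : ℕ → (Sep F ≃ₐ[F] Sep F) →
      Pt (crv (algebraMap k[X] K a) (algebraMap k[X] K b)) (Sep F)}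
    (hc : IsTateClass k' (crv (algebraMap k[X] K a) (algebraMap k[X] K b)) c)
    {a0 a1 : F} (hrep : Rep (crv (algebraMap k[X] K a) (algebraMap k[X] K b))
      (algebraMap k[X] K a) (c 1) a0 a1) {A B D : k[X]} (htr : (A, B, D) ∈ Triples a b)
    (q0 : SqEq a0 (emb k K F (A * B))) (q1 : SqEq a1 (emb k K F (A * D))) :
    ∃ r s : k, SecondCond a b A B D r s := by
  haveI := hT.sep
  haveI := hT.fracK
  haveI : IsSepClosed k' := IsSepClosure.sep_closed k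
  have h2' : (2 : k') ≠ 0 := by
    rw [← map_ofNat (algebraMap k k') 2]
    exact (_root_.map_ne_zero _).2 h2
  have h2K : (2 : K) ≠ 0 := tt h2
  have inj := IsFractionRing.injective k[X] K
  have haK : algebraMap k[X] K a ≠ 0 := by simpa using ha
  have hbK : algebraMap k[X] K b ≠ 0 := by simpa using hb
  have habK : algebraMap k[X] K a ≠ algebraMap k[X] K b := fun h => hab (inj h)
  have hsub : a - b ≠ 0 := sub_ne_zero.2 hab
  obtain ⟨mA, mB, mD, sA, sB, sD, dA, dB, dD, -⟩ := id htr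
  -- the square roots
  obtain ⟨t0', t1', n0, n1, e0', e1', k0', k1'⟩ := id hrep
  obtain ⟨c0, hc0, h0⟩ := id q0
  obtain ⟨c1, hc1, h1⟩ := id q1
  have norm : ∀ {t' : Sep F} {c x y : F}, c ≠ 0 → t' ^ 2 = algebraMap F (Sep F) x →
      x = c ^ 2 * y → (t' / algebraMap F (Sep F) c) ^ 2 = algebraMap F (Sep F) y := by
    intro t' c x y hc' e h
    have hcc : algebraMap F (Sep F) c ≠ 0 := (_root_.map_ne_zero _).2 hc'
    rw [div_pow, e, h, map_mul, map_pow]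
    field_simp
  have nrm : ∀ {t' : Sep F} {c : F} {ξ : Sep F} (σ : Sep F ≃ₐ[F] Sep F), σ t' = ξ * t' →
      σ (t' / algebraMap F (Sep F) c) = ξ * (t' / algebraMap F (Sep F) c) := by
    intro t' c ξ σ h
    rw [map_div₀, h, σ.commutes, mul_div_assoc]
  set t0 : Sep F := t0' / algebraMap F (Sep F) c0 with ht0
  set t1 : Sep F := t1' / algebraMap F (Sep F) c1 with ht1
  have e0 : t0 ^ 2 = algebraMap K (Sep F) (algebraMap k[X] K (A * B)) := by
    rw [IsScalarTower.algebraMap_apply K F (Sep F)]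
    exact norm hc0 e0' h0
  have e1 : t1 ^ 2 = algebraMap K (Sep F) (algebraMap k[X] K (A * D)) := by
    rw [IsScalarTower.algebraMap_apply K F (Sep F)]
    exact norm hc1 e1' h1
  have nz0 : t0 ≠ 0 := div_ne_zero n0 ((_root_.map_ne_zero _).2 hc0)
  have nz1 : t1 ≠ 0 := div_ne_zero n1 ((_root_.map_ne_zero _).2 hc1)
  have k0 : ∀ σ : Sep F ≃ₐ[F] Sep F,
      σ t0 = sg 0 (algebraMap K (Sep F) (algebraMap k[X] K a)) (c 1 σ) * t0 := by
    intro σ
    have : sg 0 (algebraMap K (Sep F) (algebraMap k[X] K a)) (c 1 σ) = s0 (c 1 σ) := by simp [sg]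
    rw [this]
    exact nrm σ (k0' σ)
  have k1 : ∀ σ : Sep F ≃ₐ[F] Sep F,
      σ t1 = sg 1 (algebraMap K (Sep F) (algebraMap k[X] K a)) (c 1 σ) * t1 := by
    intro σ
    have : sg 1 (algebraMap K (Sep F) (algebraMap k[X] K a)) (c 1 σ) =
      s1 (algebraMap K (Sep F) (algebraMap k[X] K a)) (c 1 σ) := by simp [sg]
    rw [this]
    exact nrm σ (k1' σ)
  obtain ⟨ψ0, hψ0, m0⟩ := psi_fun hT h2 ha hb hab hco hsep hodd hc.tc hc.inv nz0 e0 k0
  obtain ⟨ψ1, hψ1, m1⟩ := psi_fun hT h2 ha hb hab hco hsep hodd hc.tc hc.inv nz1 e1 k1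
  have sqr : ∀ x : k', x ≠ 0 → ∃ ω : k', ω ≠ 0 ∧ ω ^ 2 = x := by
    intro x hx
    haveI : NeZero (2 : k') := ⟨h2'⟩
    obtain ⟨ω, hω⟩ := IsSepClosed.exists_pow_nat_eq x 2
    exact ⟨ω, fun h => hx (by rw [← hω, h]; ring), hω⟩
  -- the three types of places
  have hcob : IsCoprime a (a - b) := by
    obtain ⟨x, y, h⟩ := hco
    exact ⟨x + y, -y, by linear_combination h⟩
  have hcob' : IsCoprime b (a - b) := by
    obtain ⟨x, y, h⟩ := hco
    exact ⟨x + y, x, by linear_combination h⟩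
  have PA : ∀ θ : k', Odd (rootMultiplicity θ (a.map (algebraMap k k'))) →
      (aeval θ A ≠ 0 → aeval θ (B * D) ≠ 0 ∧ ∀ s : k' ≃ₐ[k] k', s θ = θ → ∀ ω : k',
        ω ^ 2 = aeval θ (B * D) → s ω = (((ψ0 s * ψ1 s : ℤˣ) : ℤ) : k') * ω) ∧
      (aeval θ A = 0 → aeval θ (-b * B * D) ≠ 0 ∧ ∀ s : k' ≃ₐ[k] k', s θ = θ → ∀ ω : k',
        ω ^ 2 = aeval θ (-b * B * D) → s ω = (((ψ0 s * ψ1 s : ℤˣ) : ℤ) : k') * ω) := by
    intro θ hθ
    have za : aeval θ a = 0 := aeval_of_odd hθ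
    have zb : aeval θ b ≠ 0 := aeval_ne_of_coprime hco za
    have zab : aeval θ (a - b) ≠ 0 := aeval_ne_of_coprime hcob za
    have zB : aeval θ B ≠ 0 := aeval_ne_of_dvd dB zb
    have zD : aeval θ D ≠ 0 := aeval_ne_of_dvd dD zab
    have key := fun (s : k' ≃ₐ[k] k') (hs : s θ = θ) =>
      typeA hT h2 ha hb hab hco hsep hodd hc hrep htr q0 e0 e1 (hψ0 s) (hψ1 s) hs hθ
    refine ⟨fun h => ⟨?_, fun s hs => (key s hs).1 h⟩, fun h => ⟨?_, fun s hs => (key s hs).2 h⟩⟩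
    · rw [map_mul]
      exact mul_ne_zero zB zD
    · rw [map_mul, map_mul, map_neg]
      exact mul_ne_zero (mul_ne_zero (neg_ne_zero.2 zb) zB) zD
  have PB : ∀ θ : k', Odd (rootMultiplicity θ (b.map (algebraMap k k'))) →
      (aeval θ B ≠ 0 → aeval θ (A * D) ≠ 0 ∧ ∀ s : k' ≃ₐ[k] k', s θ = θ → ∀ ω : k',
        ω ^ 2 = aeval θ (A * D) → s ω = ((ψ1 s : ℤ) : k') * ω) ∧
      (aeval θ B = 0 → aeval θ (-a * A * D) ≠ 0 ∧ ∀ s : k' ≃ₐ[k] k', s θ = θ → ∀ ω : k',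
        ω ^ 2 = aeval θ (-a * A * D) → s ω = ((ψ1 s : ℤ) : k') * ω) := by
    intro θ hθ
    have zb : aeval θ b = 0 := aeval_of_odd hθ
    have za : aeval θ a ≠ 0 := aeval_ne_of_coprime hco.symm zb
    have zab : aeval θ (a - b) ≠ 0 := aeval_ne_of_coprime hcob' zb
    have zA : aeval θ A ≠ 0 := aeval_ne_of_dvd dA za
    have zD : aeval θ D ≠ 0 := aeval_ne_of_dvd dD zab
    have key := fun (s : k' ≃ₐ[k] k') (hs : s θ = θ) =>
      typeB hT h2 ha hb hab hco hsep hodd hc hrep htr q0 e1 (hψ1 s) hs hθ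
    refine ⟨fun h => ⟨?_, fun s hs => (key s hs).1 h⟩, fun h => ⟨?_, fun s hs => (key s hs).2 h⟩⟩
    · rw [map_mul]
      exact mul_ne_zero zA zD
    · rw [map_mul, map_mul, map_neg]
      exact mul_ne_zero (mul_ne_zero (neg_ne_zero.2 za) zA) zD
  have PC : ∀ θ : k', Odd (rootMultiplicity θ ((a - b).map (algebraMap k k'))) →
      (aeval θ D ≠ 0 → aeval θ (A * B) ≠ 0 ∧ ∀ s : k' ≃ₐ[k] k', s θ = θ → ∀ ω : k',
        ω ^ 2 = aeval θ (A * B) → s ω = ((ψ0 s : ℤ) : k') * ω) ∧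
      (aeval θ D = 0 → aeval θ (a * A * B) ≠ 0 ∧ ∀ s : k' ≃ₐ[k] k', s θ = θ → ∀ ω : k',
        ω ^ 2 = aeval θ (a * A * B) → s ω = ((ψ0 s : ℤ) : k') * ω) := by
    intro θ hθ
    have zab : aeval θ (a - b) = 0 := aeval_of_odd hθ
    have za : aeval θ a ≠ 0 := aeval_ne_of_coprime hcob.symm zab
    have zb : aeval θ b ≠ 0 := aeval_ne_of_coprime hcob'.symm zab
    have zA : aeval θ A ≠ 0 := aeval_ne_of_dvd dA za
    have zB : aeval θ B ≠ 0 := aeval_ne_of_dvd dB zb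
    have key := fun (s : k' ≃ₐ[k] k') (hs : s θ = θ) =>
      typeC hT h2 ha hb hab hco hsep hodd hc hrep htr q1 e0 (hψ0 s) hs hθ
    refine ⟨fun h => ⟨?_, fun s hs => (key s hs).1 h⟩, fun h => ⟨?_, fun s hs => (key s hs).2 h⟩⟩
    · rw [map_mul]
      exact mul_ne_zero zA zB
    · rw [map_mul, map_mul]
      exact mul_ne_zero (mul_ne_zero za zA) zB
  have m01 : ∀ s s' : k' ≃ₐ[k] k', ψ0 (s * s') * ψ1 (s * s') = (ψ0 s * ψ1 s) * (ψ0 s' * ψ1 s') := by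
    intro s s'
    rw [m0, m1]
    exact mul_mul_mul_comm _ _ _ _
  have sqq : ∀ u : ℤˣ, u * u = 1 := Int.units_mul_self
  -- roots
  have mk : ∀ (ψ : (k' ≃ₐ[k] k') → ℤˣ), (∀ s s', ψ (s * s') = ψ s * ψ s') →
      ∀ (θ : k') (w : k[X]), aeval θ w ≠ 0 → (∀ s : k' ≃ₐ[k] k', s θ = θ → ∀ ω : k',
        ω ^ 2 = aeval θ w → s ω = ((ψ s : ℤ) : k') * ω) → ∃ ρ r, RootOf ψ ρ r := by
    intro ψ hψ θ w hw h
    obtain ⟨ω, hω0, hω⟩ := sqr _ hw
    obtain ⟨ρ, r, h1, h3, h4⟩ := root_of_char h2 hψ hω0 (fun s hs => h s hs ω hω)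
    exact ⟨ρ, r, h1, h3, h4⟩
  have RA : TightRoots k k' a → ∃ ρ r, RootOf (k := k) (fun s => ψ0 s * ψ1 s) ρ r := by
    rintro ⟨Z, ⟨θ, hθ⟩, -, hZ', -⟩
    by_cases h : aeval θ A = 0
    · exact mk _ m01 θ _ ((PA θ (hZ' θ hθ)).2 h).1 ((PA θ (hZ' θ hθ)).2 h).2
    · exact mk _ m01 θ _ ((PA θ (hZ' θ hθ)).1 h).1 ((PA θ (hZ' θ hθ)).1 h).2
  have RB : TightRoots k k' b → ∃ ρ r, RootOf (k := k) ψ1 ρ r := by
    rintro ⟨Z, ⟨θ, hθ⟩, -, hZ', -⟩
    by_cases h : aeval θ B = 0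
    · exact mk _ m1 θ _ ((PB θ (hZ' θ hθ)).2 h).1 ((PB θ (hZ' θ hθ)).2 h).2
    · exact mk _ m1 θ _ ((PB θ (hZ' θ hθ)).1 h).1 ((PB θ (hZ' θ hθ)).1 h).2
  have RC : TightRoots k k' (a - b) → ∃ ρ r, RootOf (k := k) ψ0 ρ r := by
    rintro ⟨Z, ⟨θ, hθ⟩, -, hZ', -⟩
    by_cases h : aeval θ D = 0
    · exact mk _ m0 θ _ ((PC θ (hZ' θ hθ)).2 h).1 ((PC θ (hZ' θ hθ)).2 h).2
    · exact mk _ m0 θ _ ((PC θ (hZ' θ hθ)).1 h).1 ((PC θ (hZ' θ hθ)).1 h).2
  have hprod : a * b * (a - b) ≠ 0 := mul_ne_zero (mul_ne_zero ha hb) (sub_ne_zero.2 hab)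
  have hs : ((a * b * (a - b)).map (algebraMap k k')).Splits := splits_of_sep hprod hsep
  have ho : TwoTight k k' a b := hodd
  obtain ⟨⟨ρ0, r0, R0⟩, ⟨ρ1, r1, R1⟩⟩ : (∃ ρ r, RootOf (k := k) ψ0 ρ r) ∧
      (∃ ρ r, RootOf (k := k) ψ1 ρ r) := by
    rcases ho with ⟨hA', hB'⟩ | ⟨hA', hC'⟩ | ⟨hB', hC'⟩
    · obtain ⟨ρ, r, h⟩ := RA hA'
      obtain ⟨ρ', r', h'⟩ := RB hB'
      refine ⟨⟨_, _, (h.mul h').congr fun s => ?_⟩, ⟨_, _, h'⟩⟩
      rw [mul_assoc, sqq, mul_one]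
    · obtain ⟨ρ, r, h⟩ := RA hA'
      obtain ⟨ρ', r', h'⟩ := RC hC'
      refine ⟨⟨_, _, h'⟩, ⟨_, _, (h.mul h').congr fun s => ?_⟩⟩
      rw [mul_comm (ψ0 s), mul_assoc, sqq, mul_one]
    · exact ⟨RC hC', RB hB'⟩
  have R01 : RootOf (k := k) (fun s => ψ0 s * ψ1 s) (ρ0 * ρ1) (r0 * r1) := R0.mul R1
  refine ⟨r0, r1, R0.ne, R1.ne, fun π hπ => ?_, fun π hπ => ?_, fun π hπ => ?_, fun hN => ?_⟩
  · have hda : π ∣ a := by
      obtain ⟨_, m, hm, _⟩ := hπ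
      exact (dvd_pow_self π (by omega)).trans hm
    obtain ⟨θ, hθ⟩ := exists_root_sep (k' := k') hπ.1
      (hsep π hπ.1 ((hda.mul_right b).mul_right _))
    have hθo := odd_of_factor ha hπ hθ
    refine ⟨fun h => ?_, fun h => ?_⟩
    · rw [dvd_iff_aeval hπ.1 hθ] at h
      obtain ⟨hw, hs⟩ := (PA θ hθo).1 h
      obtain ⟨ω, -, hω⟩ := sqr _ hw
      exact R01.sqMod hπ.1 hθ hω fun s hsθ => hs s hsθ ω hω
    · rw [dvd_iff_aeval hπ.1 hθ] at h
      obtain ⟨hw, hs⟩ := (PA θ hθo).2 h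
      obtain ⟨ω, -, hω⟩ := sqr _ hw
      exact R01.sqMod hπ.1 hθ hω fun s hsθ => hs s hsθ ω hω
  · have hda : π ∣ b := by
      obtain ⟨_, m, hm, _⟩ := hπ
      exact (dvd_pow_self π (by omega)).trans hm
    obtain ⟨θ, hθ⟩ := exists_root_sep (k' := k') hπ.1
      (hsep π hπ.1 ((hda.mul_left a).mul_right _))
    have hθo := odd_of_factor hb hπ hθ
    refine ⟨fun h => ?_, fun h => ?_⟩
    · rw [dvd_iff_aeval hπ.1 hθ] at h
      obtain ⟨hw, hs⟩ := (PB θ hθo).1 h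
      obtain ⟨ω, -, hω⟩ := sqr _ hw
      exact R1.sqMod hπ.1 hθ hω fun s hsθ => hs s hsθ ω hω
    · rw [dvd_iff_aeval hπ.1 hθ] at h
      obtain ⟨hw, hs⟩ := (PB θ hθo).2 h
      obtain ⟨ω, -, hω⟩ := sqr _ hw
      exact R1.sqMod hπ.1 hθ hω fun s hsθ => hs s hsθ ω hω
  · have hda : π ∣ a - b := by
      obtain ⟨_, m, hm, _⟩ := hπ
      exact (dvd_pow_self π (by omega)).trans hm
    obtain ⟨θ, hθ⟩ := exists_root_sep (k' := k') hπ.1
      (hsep π hπ.1 (hda.mul_left _))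
    have hθo := odd_of_factor hsub hπ hθ
    refine ⟨fun h => ?_, fun h => ?_⟩
    · rw [dvd_iff_aeval hπ.1 hθ] at h
      obtain ⟨hw, hs⟩ := (PC θ hθo).1 h
      obtain ⟨ω, -, hω⟩ := sqr _ hw
      exact R0.sqMod hπ.1 hθ hω fun s hsθ => hs s hsθ ω hω
    · rw [dvd_iff_aeval hπ.1 hθ] at h
      obtain ⟨hw, hs⟩ := (PC θ hθo).2 h
      obtain ⟨ω, -, hω⟩ := sqr _ hw
      exact R0.sqMod hπ.1 hθ hω fun s hsθ => hs s hsθ ω hω
  · -- infinity
    have mAB : A * B ≠ 0 := mul_ne_zero mA.ne_zero mB.ne_zero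
    have mAD : A * D ≠ 0 := mul_ne_zero mA.ne_zero mD.ne_zero
    have lAB : (A * B).leadingCoeff = 1 := (mA.mul mB)
    have lAD : (A * D).leadingCoeff = 1 := (mA.mul mD)
    -- the pair of a local point of order two
    have pr : ∀ T : Pt (crv (algebraMap k[X] K a) (algebraMap k[X] K b)) K, T + T = 0 →
        (∃ c0 c1 : CompInf k' F, c0 ≠ 0 ∧ c1 ≠ 0 ∧
        algebraMap F (CompInf k' F) a0 = c0 ^ 2 * algebraMap K (CompInf k' F)
          (d0 (algebraMap k[X] K a) (algebraMap k[X] K b) T) ∧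
        algebraMap F (CompInf k' F) a1 = c1 ^ 2 * algebraMap K (CompInf k' F)
          (d1 (algebraMap k[X] K a) (algebraMap k[X] K b) T)) →
        ∃ p q : k[X], TorPair a b p q ∧
          d0 (algebraMap k[X] K a) (algebraMap k[X] K b) T = algebraMap k[X] K p ∧
          d1 (algebraMap k[X] K a) (algebraMap k[X] K b) T = algebraMap k[X] K q ∧
          Even (p * (A * B)).natDegree ∧ Even (q * (A * D)).natDegree := by
      rintro T hTT ⟨u0, u1, hu0, hu1, f0, f1⟩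
      obtain ⟨p, q, hpq, g0, g1⟩ := tor_pair h2 ha hb hab hTT
      obtain ⟨np, nq⟩ := torPair_ne ha hb hab hpq
      rw [g0] at f0
      rw [g1] at f1
      exact ⟨p, q, hpq, g0, g1, deg_par hT mAB np q0 hu0 f0, deg_par hT mAD nq q1 hu1 f1⟩
    have par : ∀ {p p' u : k[X]}, p ≠ 0 → p' ≠ 0 → u ≠ 0 → Even (p * u).natDegree →
        Even (p' * u).natDegree → (p.natDegree : ZMod 2) = p'.natDegree := by
      intro p p' u hp hp' hu h h'
      rw [← ZMod.natCast_eq_zero_iff_even, natDegree_mul hp hu, Nat.cast_add] at h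
      rw [← ZMod.natCast_eq_zero_iff_even, natDegree_mul hp' hu, Nat.cast_add] at h'
      linear_combination h - h'
    obtain ⟨T, hTT, -, hcc⟩ := inf_sign hT h2 ha hb hab hco hsep hodd hN hc hrep e0 (hψ0 1)
    obtain ⟨p, q, hpq, -, -, ep, eq⟩ := pr T hTT hcc
    obtain ⟨np, nq⟩ := torPair_ne ha hb hab hpq
    have uniq : ∀ p' q' : k[X], TorPair a b p' q' → Even (p' * (A * B)).natDegree →
        Even (q' * (A * D)).natDegree → p' = p ∧ q' = q := by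
      intro p' q' h hp' hq'
      obtain ⟨np', nq'⟩ := torPair_ne ha hb hab h
      exact torPair_unique ha hb hab hN h hpq (par np' np mAB hp' ep) (par nq' nq mAD hq' eq)
    obtain ⟨ω0, -, hω0⟩ := sqr (algebraMap k k' p.leadingCoeff)
      ((_root_.map_ne_zero _).2 (leadingCoeff_ne_zero.2 np))
    obtain ⟨ω1, -, hω1⟩ := sqr (algebraMap k k' q.leadingCoeff)
      ((_root_.map_ne_zero _).2 (leadingCoeff_ne_zero.2 nq))
    have S0 : IsSquare (r0 * p.leadingCoeff) := by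
      refine R0.sq hω0 fun s => ?_
      obtain ⟨T', hTT', hs, hcc'⟩ :=
        inf_sign hT h2 ha hb hab hco hsep hodd hN hc hrep e0 (hψ0 s)
      obtain ⟨p', q', hpq', g0, g1, ep', eq'⟩ := pr T' hTT' hcc'
      obtain ⟨rfl, rfl⟩ := uniq p' q' hpq' ep' eq'
      refine hs (p' * (A * B)) (mul_ne_zero np mAB) ep' ?_ ω0 ?_
      · have : dd 0 (algebraMap k[X] K a) (algebraMap k[X] K b) T' =
          d0 (algebraMap k[X] K a) (algebraMap k[X] K b) T' := by simp [dd]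
        rw [this, g0, ← map_mul]
      · rw [leadingCoeff_mul, lAB, mul_one]
        exact hω0
    have S1 : IsSquare (r1 * q.leadingCoeff) := by
      refine R1.sq hω1 fun s => ?_
      obtain ⟨T', hTT', hs, hcc'⟩ :=
        inf_sign hT h2 ha hb hab hco hsep hodd hN hc hrep e1 (hψ1 s)
      obtain ⟨p', q', hpq', g0, g1, ep', eq'⟩ := pr T' hTT' hcc'
      obtain ⟨rfl, rfl⟩ := uniq p' q' hpq' ep' eq'
      refine hs (q' * (A * D)) (mul_ne_zero nq mAD) eq' ?_ ω1 ?_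
      · have : dd 1 (algebraMap k[X] K a) (algebraMap k[X] K b) T' =
          d1 (algebraMap k[X] K a) (algebraMap k[X] K b) T' := by simp [dd]
        rw [this, g1, ← map_mul]
      · rw [leadingCoeff_mul, lAD, mul_one]
        exact hω1
    exact ⟨p, q, hpq, by rw [mul_assoc]; exact ep, by rw [mul_assoc]; exact eq, S0, S1⟩

end core

end Pool.Agent.X243.FL
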